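import Pool.Agent.X59.GD.C
import Pool.Agent.X59.GC.E

set_option autoImplicit false
set_option linter.unusedSectionVars false

/-! Typical couplings in dimension at least two have one pair of ground states. -/

open Finset Filter Topology MeasureTheory

namespace Pool.Agent.X59.GD

open Pool.Agent.TH761.EB
open Pool.Agent.X59.GC (Perf cofinal noties)

variable {k : ℕ}

theorem fib (x : St k) : {e : Eg k | tl e = x ∨ hd e = x}.Finite := by
  classical
  refine (Finset.finite_toSet (((Finset.univ : Finset (Fin (k + 2))).image fun i => (x, i)) ∪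
    ((Finset.univ : Finset (Fin (k + 2))).image fun i => (x - Pi.single i 1, i)))).subset ?_
  rintro ⟨v, i⟩ (h | h)
  · rw [Finset.mem_coe, Finset.mem_union, Finset.mem_image]
    left
    exact ⟨i, Finset.mem_univ _, by rw [← h]; rfl⟩
  · rw [Finset.mem_coe, Finset.mem_union, Finset.mem_image, Finset.mem_image]
    right
    refine ⟨i, Finset.mem_univ _, ?_⟩
    rw [← h]
    simp [hd]

theorem front (D : Finset (St k)) (hD : D.Nonempty) :
    ∃ e : Eg k, tl e ∈ D ∧ hd e ∈ (Set.univ : Set (St k)) ∧ hd e ∉ D := by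
  obtain ⟨v, hv, hmax⟩ := exists_max_image D (fun v => v 0) hD
  refine ⟨(v, 0), hv, Set.mem_univ _, fun h => ?_⟩
  have h1 := hmax _ h
  have h2 : hd (v, 0) 0 = v 0 + 1 := hd_i (v, 0)
  rw [h2] at h1
  omega

theorem fin_eg (L : ℕ) : {e : Eg k | rho (tl e) ≤ L}.Finite := by
  refine ((fin_rho L).prod (Set.finite_univ : (Set.univ : Set (Fin (k + 2))).Finite)).subset ?_
  intro e he
  exact ⟨he, Set.mem_univ _⟩

theorem near_open (K : Set ℝ) (a : ℝ) (n : ℕ) :
    IsOpen {J : Eg k → K | Near a n fun e => (J e : ℝ)} := by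
  have e1 : {J : Eg k → K | Near a n fun e => (J e : ℝ)} =
      ⋂ e ∈ {e : Eg k | rho (tl e) ≤ LL k n ∧ rho (hd e) ≤ LL k n ∧
        ¬ (rho (tl e) ≤ n ∧ rho (hd e) ≤ n)},
      {J : Eg k → K | |(J e : ℝ) - a * pat n e| < a * dl k n} := by
    ext J
    simp only [Set.mem_iInter]
    constructor
    · intro h e he
      exact h e he.1 he.2.1 he.2.2
    · intro h e h1 h2 h3
      exact h e ⟨h1, h2, h3⟩
  rw [e1]
  refine Set.Finite.isOpen_biInter ((fin_eg (LL k n)).subset fun e he => he.1) fun e _ => ?_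
  exact isOpen_lt (((continuous_subtype_val.comp (continuous_apply e)).sub
    continuous_const).abs) continuous_const

theorem pat_val (n : ℕ) (e : Eg k) : pat n e = 1 ∨ pat n e = -1 := by
  unfold pat
  split_ifs
  · exact alt_sign _
  · left; rfl

theorem typical {K : Set ℝ} (hK : Perf K) {a : ℝ} (ha : 0 < a) (h1 : a ∈ K) (h2 : -a ∈ K) :
    ∀ᶠ J in residual (Eg k → K), ∃ σ : St k → ℝ,
      GS tl hd Set.univ (fun e => (J e : ℝ)) σ ∧
      ∀ τ, GS tl hd Set.univ (fun e => (J e : ℝ)) τ → τ = σ ∨ τ = -σ := by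
  classical
  have hco := cofinal (E := Eg k) (K := K) (fun n => {J : Eg k → K | Near a n fun e => (J e : ℝ)})
    (near_open K a) (by
      intro n F J1
      obtain ⟨m, hm, hF⟩ : ∃ m ≥ n, ∀ e ∈ F, rho (tl e) ≤ m ∧ rho (hd e) ≤ m := by
        refine ⟨n + ∑ e ∈ F, (rho (tl e) + rho (hd e)), by omega, fun e he => ?_⟩
        have h5 := single_le_sum (f := fun e : Eg k => rho (tl e) + rho (hd e))
          (fun _ _ => Nat.zero_le _) he
        constructor <;> omega
      refine ⟨m, hm, fun e => if rho (tl e) ≤ m ∧ rho (hd e) ≤ m then J1 e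
          else if pat m e = 1 then ⟨a, h1⟩ else ⟨-a, h2⟩, ?_, ?_⟩
      · intro e _ _ h3
        have ha' : 0 < a * dl k m := mul_pos ha (dl_pos _ _)
        show |((if rho (tl e) ≤ m ∧ rho (hd e) ≤ m then J1 e
          else if pat m e = 1 then ⟨a, h1⟩ else ⟨-a, h2⟩ : K) : ℝ) - a * pat m e| < a * dl k m
        rw [if_neg h3]
        split_ifs with h4
        · rw [h4]
          simpa using ha'
        · rw [(pat_val _ e).resolve_left h4]
          simpa using ha'
      · intro e he
        show (if rho (tl e) ≤ m ∧ rho (hd e) ≤ m then J1 e else _) = J1 e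
        rw [if_pos (hF e he)])
  filter_upwards [hco, noties (E := Eg k) hK] with J hJ1 hJ2
  obtain ⟨σ, hσ⟩ := exists_gs (a := tl) (b := hd) (R := Set.univ) fib
    (fun D hD _ => front D hD) (J := fun e => (J e : ℝ)) hJ2
  refine ⟨σ, hσ, fun τ hτ => ?_⟩
  refine global (fun v => hσ.1.1 v (Set.mem_univ v)) (fun v => hτ.1.1 v (Set.mem_univ v)) ?_
  intro n
  obtain ⟨m, hm, h3⟩ := hJ1 n
  exact ⟨m, hm, unique_near ha h3 hσ hτ⟩

end Pool.Agent.X59.GD
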