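import Pool.Agent.X59.GC.E
import Pool.Agent.TH761.EB.Gen

set_option autoImplicit false
set_option linter.unusedSectionVars false

/-! Typical couplings in dimension one. -/

open Finset Filter Topology

namespace Pool.Agent.X59.GD1

open Pool.Agent.TH761.EB
open Pool.Agent.X59.GC (Perf noties)

abbrev S1 := Fin 1 → ℤ

abbrev E1 := S1 × Fin 1

def tl (e : E1) : S1 := e.1

def hd (e : E1) : S1 := e.1 + Pi.single e.2 1

def st (x : ℤ) : S1 := fun _ => x

def bd (x : ℤ) : E1 := (st x, 0)

theorem st_eq (v : S1) : v = st (v 0) := by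
  funext i
  rw [Subsingleton.elim i 0]
  rfl

theorem bd_eq (e : E1) : e = bd (e.1 0) := by
  obtain ⟨v, i⟩ := e
  rw [Subsingleton.elim i 0]
  show (v, (0 : Fin 1)) = (st (v 0), 0)
  rw [← st_eq]

theorem hd_bd (x : ℤ) : hd (bd x) = st (x + 1) := by
  funext i
  rw [Subsingleton.elim i 0]
  simp [hd, bd, st]

theorem tl_bd (x : ℤ) : tl (bd x) = st x := rfl

theorem st_inj {x y : ℤ} (h : st x = st y) : x = y := congrFun h 0

theorem two {J : E1 → ℝ} {σ : S1 → ℝ} (h : GS tl hd Set.univ J σ) {p q : ℤ} (hpq : p < q) :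
    0 < J (bd p) * (σ (st p) * σ (st (p + 1))) + J (bd q) * (σ (st q) * σ (st (q + 1))) := by
  classical
  set ρ : S1 → ℝ := fun v => if p < v 0 ∧ v 0 ≤ q then -σ v else σ v with hρ
  have hσ : ∀ v, σ v = 1 ∨ σ v = -1 := fun v => h.1.1 v (Set.mem_univ v)
  have h1 := h.2 ρ ⟨fun v _ => by
      show (if p < v 0 ∧ v 0 ≤ q then -σ v else σ v) = 1 ∨
        (if p < v 0 ∧ v 0 ≤ q then -σ v else σ v) = -1
      split_ifs
      · rcases hσ v with h | h
        · right; rw [h]
        · left; rw [h, neg_neg]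
      · exact hσ v, fun v hv => absurd (Set.mem_univ v) hv⟩ (by
      refine ((Set.finite_Icc (fun _ => p : S1) (fun _ => q))).subset fun v hv => ?_
      have hc : p < v 0 ∧ v 0 ≤ q := by
        by_contra hc
        apply hv
        show (if p < v 0 ∧ v 0 ≤ q then -σ v else σ v) = σ v
        rw [if_neg hc]
      refine ⟨fun i => ?_, fun i => ?_⟩
      · rw [Subsingleton.elim i 0]
        exact hc.1.le
      · rw [Subsingleton.elim i 0]
        exact hc.2) (fun he => by
      have h2 := congrFun he (st q)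
      have h3 : ρ (st q) = -σ (st q) := by
        show (if p < q ∧ q ≤ q then -σ (st q) else σ (st q)) = _
        rw [if_pos ⟨hpq, le_rfl⟩]
      rw [h3] at h2
      rcases hσ (st q) with h4 | h4 <;> rw [h4] at h2 <;> norm_num at h2)
  have hval : ∀ x : ℤ, ρ (st x) = if p < x ∧ x ≤ q then -σ (st x) else σ (st x) := fun x => rfl
  have hS : Function.support (fun e : E1 => J e * (σ (tl e) * σ (hd e) - ρ (tl e) * ρ (hd e))) ⊆
      (({bd p, bd q} : Finset E1) : Set E1) := by
    intro e he
    rw [bd_eq e] at he ⊢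
    generalize e.1 0 = x at he ⊢
    by_contra hc
    have hp : x ≠ p := by
      rintro rfl; exact hc (by simp)
    have hq : x ≠ q := by
      rintro rfl; exact hc (by simp)
    apply he
    show J (bd x) * (σ (tl (bd x)) * σ (hd (bd x)) - ρ (tl (bd x)) * ρ (hd (bd x))) = 0
    rw [hd_bd, tl_bd, hval, hval]
    by_cases h5 : p < x ∧ x ≤ q
    · rw [if_pos h5, if_pos (by omega)]; ring
    · rw [if_neg h5, if_neg (by omega)]; ring
  have hne : bd p ≠ bd q := by
    intro he
    have := st_inj (congrArg Prod.fst he)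
    omega
  rw [finsum_eq_sum_of_support_subset _ hS, sum_pair hne] at h1
  rw [hd_bd, hd_bd, tl_bd, tl_bd, hval, hval, hval, hval, if_neg (by omega), if_pos (by omega),
    if_pos (by omega), if_neg (by omega)] at h1
  linarith

theorem fib (x : S1) : {e : E1 | tl e = x ∨ hd e = x}.Finite := by
  classical
  refine (Finset.finite_toSet (((Finset.univ : Finset (Fin 1)).image fun i => (x, i)) ∪
    ((Finset.univ : Finset (Fin 1)).image fun i => (x - Pi.single i 1, i)))).subset ?_
  rintro ⟨v, i⟩ (h | h)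
  · rw [Finset.mem_coe, Finset.mem_union, Finset.mem_image]
    left
    exact ⟨i, Finset.mem_univ _, by rw [← h]; rfl⟩
  · rw [Finset.mem_coe, Finset.mem_union, Finset.mem_image, Finset.mem_image]
    right
    refine ⟨i, Finset.mem_univ _, ?_⟩
    rw [← h]
    simp [hd]

theorem front (D : Finset S1) (hD : D.Nonempty) :
    ∃ e : E1, tl e ∈ D ∧ hd e ∈ (Set.univ : Set S1) ∧ hd e ∉ D := by
  obtain ⟨v, hv, hmax⟩ := exists_max_image D (fun v => v 0) hD
  refine ⟨(v, 0), hv, Set.mem_univ _, fun h => ?_⟩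
  have h1 := hmax _ h
  have h2 : hd (v, 0) 0 = v 0 + 1 := by simp [hd]
  rw [h2] at h1
  omega

theorem weak {K : Set ℝ} (hK : Perf K) : ∀ᶠ J in residual (E1 → K), ∀ e, ∃ e', e' ≠ e ∧
    |((J e' : K) : ℝ)| < |((J e : K) : ℝ)| := by
  classical
  rw [eventually_countable_forall]
  intro e
  have hopen : IsOpen {J : E1 → K | ∃ e', e' ≠ e ∧ |((J e' : K) : ℝ)| < |((J e : K) : ℝ)|} := by
    have h1 : {J : E1 → K | ∃ e', e' ≠ e ∧ |((J e' : K) : ℝ)| < |((J e : K) : ℝ)|} =
        ⋃ e', ⋃ _ : e' ≠ e, {J : E1 → K | |((J e' : K) : ℝ)| < |((J e : K) : ℝ)|} := by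
      ext J
      simp
    rw [h1]
    refine isOpen_iUnion fun e' => isOpen_iUnion fun _ => ?_
    exact isOpen_lt (continuous_subtype_val.comp (continuous_apply e')).abs
      (continuous_subtype_val.comp (continuous_apply e)).abs
  refine residual_of_dense_open hopen ?_
  rw [dense_iff_inter_open]
  rintro V hV ⟨J1, hJ1⟩
  obtain ⟨J2, hJ2, κ, hκ⟩ : ∃ J2 ∈ V, ∃ κ : K, |(κ : ℝ)| < |((J2 e : K) : ℝ)| := by
    by_cases hex : ∃ κ : K, |(κ : ℝ)| < |((J1 e : K) : ℝ)|
    · exact ⟨J1, hJ1, hex⟩
    · push Not at hex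
      have hcu : Continuous fun y : K => Function.update J1 e y :=
        continuous_const.update e continuous_id
      have hV' : IsOpen ((fun y : K => Function.update J1 e y) ⁻¹' V) := hV.preimage hcu
      have hmem : J1 e ∈ (fun y : K => Function.update J1 e y) ⁻¹' V := by
        show Function.update J1 e (J1 e) ∈ V
        rw [Function.update_eq_self]
        exact hJ1
      obtain ⟨ε, hε, hball⟩ := Metric.isOpen_iff.1 hV' _ hmem
      have hε' : 0 < (if ((J1 e : K) : ℝ) = 0 then ε else min ε |((J1 e : K) : ℝ)|) := by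
        split_ifs with h0
        · exact hε
        · exact lt_min hε (abs_pos.2 h0)
      obtain ⟨y, hyK, hy, hyε⟩ := hK (J1 e) (J1 e).2 _ hε'
      have hyε1 : |y - J1 e| < ε := by
        refine hyε.trans_le ?_
        split_ifs
        · exact le_rfl
        · exact min_le_left _ _
      have hyV : Function.update J1 e (⟨y, hyK⟩ : K) ∈ V := by
        have : (⟨y, hyK⟩ : K) ∈ Metric.ball (J1 e) ε := by
          rw [Metric.mem_ball, Subtype.dist_eq, Real.dist_eq]
          exact hyε1
        exact hball this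
      refine ⟨_, hyV, J1 e, ?_⟩
      rw [Function.update_self]
      show |((J1 e : K) : ℝ)| < |y|
      have h5 : |((J1 e : K) : ℝ)| ≤ |y| := hex ⟨y, hyK⟩
      refine lt_of_le_of_ne h5 fun h6 => ?_
      rcases abs_eq_abs.1 h6 with h7 | h7
      · exact hy h7.symm
      · by_cases h0 : ((J1 e : K) : ℝ) = 0
        · rw [h0] at h7 hy
          exact hy (by linarith)
        · rw [if_neg h0] at hyε
          have h8 := hyε.trans_le (min_le_right _ _)
          have h9 : y - J1 e = -(2 * (J1 e : ℝ)) := by linarith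
          rw [h9, abs_neg, abs_mul] at h8
          have h10 := abs_pos.2 h0
          norm_num at h8
          linarith
  obtain ⟨F, v, hv, hsub⟩ := isOpen_pi_iff.1 hV J2 hJ2
  have : Infinite E1 := Infinite.of_injective bd fun x y h => st_inj (congrArg Prod.fst h)
  obtain ⟨e', he'⟩ := Infinite.exists_notMem_finset (insert e F)
  rw [mem_insert, not_or] at he'
  refine ⟨Function.update J2 e' κ, hsub fun f hf => ?_, e', he'.1, ?_⟩
  · have hf' : f ∈ F := by exact_mod_cast hf
    have hne : f ≠ e' := fun h => he'.2 (h ▸ hf')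
    rw [Function.update_of_ne hne]
    exact (hv f hf').2
  · rw [Function.update_self, Function.update_of_ne (Ne.symm he'.1)]
    exact hκ

theorem typical {K : Set ℝ} (hK : Perf K) :
    ∀ᶠ J in residual (E1 → K), ∃ σ : S1 → ℝ,
      GS tl hd Set.univ (fun e => (J e : ℝ)) σ ∧
      ∀ τ, GS tl hd Set.univ (fun e => (J e : ℝ)) τ → τ = σ ∨ τ = -σ := by
  filter_upwards [weak hK, noties (E := E1) hK] with J hJ1 hJ2
  obtain ⟨σ, hσ⟩ := exists_gs (a := tl) (b := hd) (R := Set.univ) fib
    (fun D hD _ => front D hD) (J := fun e => (J e : ℝ)) hJ2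
  refine ⟨σ, hσ, fun τ hτ => ?_⟩
  have hs : ∀ v, σ v = 1 ∨ σ v = -1 := fun v => hσ.1.1 v (Set.mem_univ v)
  have ht : ∀ v, τ v = 1 ∨ τ v = -1 := fun v => hτ.1.1 v (Set.mem_univ v)
  have sat : ∀ ρ : S1 → ℝ, GS tl hd Set.univ (fun e => (J e : ℝ)) ρ → ∀ x : ℤ,
      0 < (J (bd x) : ℝ) * (ρ (st x) * ρ (st (x + 1))) := by
    intro ρ hρ x
    have hr : ∀ v, ρ v = 1 ∨ ρ v = -1 := fun v => hρ.1.1 v (Set.mem_univ v)
    obtain ⟨e', he', hlt⟩ := hJ1 (bd x)
    rw [bd_eq e'] at he' hlt
    generalize e'.1 0 = y at he' hlt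
    have hne : y ≠ x := fun h => he' (by rw [h])
    have h1 : 0 < (J (bd x) : ℝ) * (ρ (st x) * ρ (st (x + 1))) +
        (J (bd y) : ℝ) * (ρ (st y) * ρ (st (y + 1))) := by
      rcases lt_or_gt_of_ne hne with h | h
      · have := two hρ h
        linarith
      · exact two hρ h
    have hab : ∀ u w, |ρ u * ρ w| = 1 := by
      intro u w
      rcases hr u with h | h <;> rcases hr w with h' | h' <;> rw [h, h'] <;> norm_num
    have h2 : (J (bd y) : ℝ) * (ρ (st y) * ρ (st (y + 1))) ≤ |(J (bd y) : ℝ)| := by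
      refine (le_abs_self _).trans ?_
      rw [abs_mul, hab, mul_one]
    by_contra hcon
    rw [not_lt] at hcon
    have h3 : |(J (bd x) : ℝ)| = |(J (bd x) : ℝ) * (ρ (st x) * ρ (st (x + 1)))| := by
      rw [abs_mul, hab, mul_one]
    rw [abs_of_nonpos hcon] at h3
    linarith
  have hstep : ∀ x : ℤ, σ (st (x + 1)) * τ (st (x + 1)) = σ (st x) * τ (st x) := by
    intro x
    have h1 := sat σ hσ x
    have h2 := sat τ hτ x
    rcases hs (st x) with a1 | a1 <;> rcases hs (st (x + 1)) with a2 | a2 <;>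
    rcases ht (st x) with a3 | a3 <;> rcases ht (st (x + 1)) with a4 | a4 <;>
    rw [a1, a2] at h1 <;> rw [a3, a4] at h2 <;> rw [a1, a2, a3, a4] <;>
    first | (norm_num; done) | (exfalso; linarith)
  have hall : ∀ x : ℤ, σ (st x) * τ (st x) = σ (st 0) * τ (st 0) := by
    intro x
    induction x using Int.induction_on with
    | zero => rfl
    | succ i ih => rw [hstep, ih]
    | pred i ih =>
      rw [← ih]
      have := hstep (-(i : ℤ) - 1)
      rw [sub_add_cancel] at this
      exact this.symm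
  have e : ∀ w, σ w * σ w = 1 := by
    intro w
    rcases hs w with h4 | h4 <;> rw [h4] <;> norm_num
  have h5 : σ (st 0) * τ (st 0) = 1 ∨ σ (st 0) * τ (st 0) = -1 := by
    rcases hs (st 0) with h | h <;> rcases ht (st 0) with h' | h' <;> rw [h, h'] <;> norm_num
  rcases h5 with h5 | h5
  · left
    funext v
    have h6 := hall (v 0)
    rw [h5, ← st_eq] at h6
    calc τ v = (σ v * σ v) * τ v := by rw [e, one_mul]
      _ = σ v * (σ v * τ v) := by ring
      _ = σ v := by rw [h6, mul_one]
  · right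
    funext v
    have h6 := hall (v 0)
    rw [h5, ← st_eq] at h6
    calc τ v = (σ v * σ v) * τ v := by rw [e, one_mul]
      _ = σ v * (σ v * τ v) := by ring
      _ = (-σ) v := by rw [h6]; simp

end Pool.Agent.X59.GD1
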