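import Mathlib

set_option autoImplicit false
set_option linter.unusedSectionVars false

/-! Geometry of the boxes `[-r+1, r]^d` for `d ≥ 2`. -/

open Finset

namespace Pool.Agent.X59.GD

variable {k : ℕ}

abbrev St (k : ℕ) := Fin (k + 2) → ℤ

abbrev Eg (k : ℕ) := St k × Fin (k + 2)

def tl (e : Eg k) : St k := e.1

def hd (e : Eg k) : St k := e.1 + Pi.single e.2 1

theorem nx_ne (i : Fin (k + 2)) : i + 1 ≠ i := by
  intro h
  have h1 := congrArg Fin.val h
  rw [Fin.val_add, Fin.val_one] at h1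
  have h2 := i.2
  by_cases h3 : i.val + 1 < k + 2
  · rw [Nat.mod_eq_of_lt h3] at h1; omega
  · have h4 : i.val + 1 = k + 2 := by omega
    rw [h4, Nat.mod_self] at h1; omega

theorem hd_i (e : Eg k) : hd e e.2 = e.1 e.2 + 1 := by simp [hd]

theorem hd_j (e : Eg k) {j : Fin (k + 2)} (h : j ≠ e.2) : hd e j = e.1 j := by
  simp [hd, Pi.single_eq_of_ne h]

/-- the radius of a site -/
def rho (v : St k) : ℕ := univ.sup fun j => (max (v j) (1 - v j)).toNat

theorem rho_le {v : St k} {r : ℕ} : rho v ≤ r ↔ ∀ j, -(r : ℤ) + 1 ≤ v j ∧ v j ≤ r := by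
  unfold rho
  rw [Finset.sup_le_iff]
  constructor
  · intro h j
    have := h j (mem_univ j)
    omega
  · intro h j _
    have := h j
    omega

theorem rho_eq {v : St k} {r : ℕ} : rho v = r ↔
    (∀ j, -(r : ℤ) + 1 ≤ v j ∧ v j ≤ r) ∧ ∃ j, v j = r ∨ v j = -(r : ℤ) + 1 := by
  constructor
  · intro h
    have h1 := rho_le.1 h.le
    refine ⟨h1, ?_⟩
    by_contra hcon
    push Not at hcon
    have h2 := h1 0
    have h3 : rho v ≤ r - 1 := by
      rw [rho_le]
      intro j
      have h4 := h1 j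
      have h5 := hcon j
      omega
    omega
  · rintro ⟨h1, j, hj⟩
    have h2 : rho v ≤ r := rho_le.2 h1
    by_contra hcon
    have h3 : rho v ≤ r - 1 := by omega
    have h4 := rho_le.1 h3 j
    have h5 := h1 j
    omega

theorem rho_step (e : Eg k) : rho (hd e) ≤ rho (tl e) + 1 ∧ rho (tl e) ≤ rho (hd e) + 1 := by
  constructor
  · rw [rho_le]
    have h1 := rho_le.1 (le_refl (rho (tl e)))
    intro j
    have h2 : -((rho (tl e) : ℕ) : ℤ) + 1 ≤ e.1 j ∧ e.1 j ≤ rho (tl e) := h1 j
    by_cases hj : j = e.2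
    · subst hj
      rw [hd_i]
      push_cast
      omega
    · rw [hd_j e hj]
      push_cast
      omega
  · rw [rho_le]
    have h1 := rho_le.1 (le_refl (rho (hd e)))
    intro j
    have h2 := h1 j
    show -((rho (hd e) + 1 : ℕ) : ℤ) + 1 ≤ e.1 j ∧ e.1 j ≤ ((rho (hd e) + 1 : ℕ) : ℤ)
    by_cases hj : j = e.2
    · subst hj
      rw [hd_i] at h2
      push_cast
      omega
    · rw [hd_j e hj] at h2
      push_cast
      omega

/-- radial edges -/
def Rad (r : ℕ) (e : Eg k) : Prop :=
  rho (tl e) ≠ rho (hd e) ∧ min (rho (tl e)) (rho (hd e)) = r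

/-- tangential edges -/
def Tan (r : ℕ) (e : Eg k) : Prop := rho (tl e) = r ∧ rho (hd e) = r

theorem rad_ends {r : ℕ} {e : Eg k} (h : (e.1 e.2 = r ∨ e.1 e.2 = -(r : ℤ)) ∧
    ∀ j, j ≠ e.2 → -(r : ℤ) + 1 ≤ e.1 j ∧ e.1 j ≤ r) :
    (e.1 e.2 = r ∧ rho (tl e) = r ∧ rho (hd e) = r + 1) ∨
    (e.1 e.2 = -(r : ℤ) ∧ rho (tl e) = r + 1 ∧ rho (hd e) = r) := by
  obtain ⟨h1, h2⟩ := h
  have hr : 1 ≤ r := by
    have := h2 (e.2 + 1) (nx_ne _)
    omega
  rcases h1 with h1 | h1
  · left
    refine ⟨h1, ?_, ?_⟩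
    · rw [rho_eq]
      refine ⟨fun j => ?_, e.2, Or.inl h1⟩
      by_cases hj : j = e.2
      · subst hj
        show -(r : ℤ) + 1 ≤ e.1 e.2 ∧ e.1 e.2 ≤ r
        omega
      · exact h2 j hj
    · rw [rho_eq]
      refine ⟨fun j => ?_, e.2, Or.inl ?_⟩
      · by_cases hj : j = e.2
        · subst hj
          rw [hd_i]
          push_cast
          omega
        · rw [hd_j e hj]
          have := h2 j hj
          push_cast
          omega
      · rw [hd_i, h1]
        push_cast
        rfl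
  · right
    refine ⟨h1, ?_, ?_⟩
    · rw [rho_eq]
      refine ⟨fun j => ?_, e.2, Or.inr ?_⟩
      · show -((r + 1 : ℕ) : ℤ) + 1 ≤ e.1 j ∧ e.1 j ≤ ((r + 1 : ℕ) : ℤ)
        by_cases hj : j = e.2
        · subst hj
          push_cast
          omega
        · have := h2 j hj
          push_cast
          omega
      · show e.1 e.2 = _
        rw [h1]
        push_cast
        ring
    · rw [rho_eq]
      refine ⟨fun j => ?_, e.2, Or.inr ?_⟩
      · by_cases hj : j = e.2
        · subst hj
          rw [hd_i]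
          omega
        · rw [hd_j e hj]
          exact h2 j hj
      · rw [hd_i, h1]

theorem rad_iff {r : ℕ} {e : Eg k} : Rad r e ↔ (e.1 e.2 = r ∨ e.1 e.2 = -(r : ℤ)) ∧
    ∀ j, j ≠ e.2 → -(r : ℤ) + 1 ≤ e.1 j ∧ e.1 j ≤ r := by
  constructor
  · rintro ⟨hne, hmin⟩
    have hst := rho_step e
    rcases lt_or_gt_of_ne hne with hlt | hlt
    · have h1 : rho (tl e) = r := by omega
      have h2 : ¬ rho (hd e) ≤ r := by omega
      have h3 : ∀ j, -(r : ℤ) + 1 ≤ e.1 j ∧ e.1 j ≤ r := (rho_le.1 h1.le)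
      refine ⟨Or.inl ?_, fun j _ => h3 j⟩
      by_contra hc
      apply h2
      rw [rho_le]
      intro j
      by_cases hj : j = e.2
      · subst hj
        rw [hd_i]
        have := h3 e.2
        omega
      · rw [hd_j e hj]
        exact h3 j
    · have h1 : rho (hd e) = r := by omega
      have h2 : ¬ rho (tl e) ≤ r := by omega
      have h3 := (rho_le.1 h1.le)
      have h4 : ∀ j, j ≠ e.2 → -(r : ℤ) + 1 ≤ e.1 j ∧ e.1 j ≤ r := by
        intro j hj
        have := h3 j
        rw [hd_j e hj] at this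
        exact this
      refine ⟨Or.inr ?_, h4⟩
      by_contra hc
      apply h2
      rw [rho_le]
      intro j
      show -(r : ℤ) + 1 ≤ e.1 j ∧ e.1 j ≤ r
      by_cases hj : j = e.2
      · subst hj
        have := h3 e.2
        rw [hd_i] at this
        omega
      · exact h4 j hj
  · intro h
    rcases rad_ends h with ⟨_, h1, h2⟩ | ⟨_, h1, h2⟩
    · unfold Rad
      rw [h1, h2]
      omega
    · unfold Rad
      rw [h1, h2]
      omega

theorem Rad.pos {r : ℕ} {e : Eg k} (h : Rad r e) : 1 ≤ r := by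
  have := (rad_iff.1 h).2 (e.2 + 1) (nx_ne _)
  omega

/-- the site at level `r + m` above the radial edge -/
def lev (r m : ℕ) (e : Eg k) : St k :=
  if e.1 e.2 = r then Function.update e.1 e.2 ((r : ℤ) + m)
  else Function.update e.1 e.2 (-(r : ℤ) + 1 - m)

/-- the parallel edge -/
def sh (e : Eg k) : Eg k := (e.1 + Pi.single (e.2 + 1) 1, e.2)

def sh' (e : Eg k) : Eg k := (e.1 - Pi.single (e.2 + 1) 1, e.2)

theorem lev_ends {r : ℕ} {e : Eg k} (h : Rad r e) :
    (lev r 0 e = tl e ∧ lev r 1 e = hd e) ∨ (lev r 0 e = hd e ∧ lev r 1 e = tl e) := by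
  have hp := h.pos
  rw [rad_iff] at h
  rcases h.1 with h1 | h1
  · left
    unfold lev
    rw [if_pos h1, if_pos h1]
    constructor
    · funext j
      by_cases hj : j = e.2
      · subst hj
        rw [Function.update_self]
        show _ = e.1 e.2
        rw [h1]
        push_cast
        ring
      · rw [Function.update_of_ne hj]
        rfl
    · funext j
      by_cases hj : j = e.2
      · subst hj
        rw [Function.update_self, hd_i, h1]
        push_cast
        ring
      · rw [Function.update_of_ne hj, hd_j e hj]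
  · right
    have h2 : ¬ e.1 e.2 = r := by omega
    unfold lev
    rw [if_neg h2, if_neg h2]
    constructor
    · funext j
      by_cases hj : j = e.2
      · subst hj
        rw [Function.update_self, hd_i, h1]
        push_cast
        ring
      · rw [Function.update_of_ne hj, hd_j e hj]
    · funext j
      by_cases hj : j = e.2
      · subst hj
        rw [Function.update_self]
        show _ = e.1 e.2
        rw [h1]
        push_cast
        ring
      · rw [Function.update_of_ne hj]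
        rfl

theorem sh_i (e : Eg k) : (sh e).1 e.2 = e.1 e.2 := by
  simp [sh]

theorem sh'_i (e : Eg k) : (sh' e).1 e.2 = e.1 e.2 := by
  simp [sh']

theorem sh_nx (e : Eg k) : (sh e).1 (e.2 + 1) = e.1 (e.2 + 1) + 1 := by
  simp [sh]

theorem sh'_nx (e : Eg k) : (sh' e).1 (e.2 + 1) = e.1 (e.2 + 1) - 1 := by
  simp [sh']

theorem sh_j (e : Eg k) {j : Fin (k + 2)} (h : j ≠ e.2 + 1) : (sh e).1 j = e.1 j := by
  simp [sh, Pi.single_eq_of_ne h]

theorem sh'_j (e : Eg k) {j : Fin (k + 2)} (h : j ≠ e.2 + 1) : (sh' e).1 j = e.1 j := by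
  simp [sh', Pi.single_eq_of_ne h]

theorem sh_sh' (e : Eg k) : sh (sh' e) = e := by
  obtain ⟨v, i⟩ := e
  simp [sh, sh']

theorem sh'_sh (e : Eg k) : sh' (sh e) = e := by
  obtain ⟨v, i⟩ := e
  simp [sh, sh']

theorem lev_sh (r m : ℕ) (e : Eg k) : lev r m (sh e) = lev r m e + Pi.single (e.2 + 1) 1 := by
  have e1 : (sh e).1 (sh e).2 = e.1 e.2 := sh_i e
  have e2 : (sh e).2 = e.2 := rfl
  unfold lev
  rw [e1]
  split_ifs with h
  · funext j
    by_cases hj : j = e.2
    · subst hj
      rw [e2, Function.update_self, Pi.add_apply, Function.update_self,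
        Pi.single_eq_of_ne (nx_ne e.2).symm, add_zero]
    · rw [e2, Function.update_of_ne hj, Pi.add_apply, Function.update_of_ne hj]
      rfl
  · funext j
    by_cases hj : j = e.2
    · subst hj
      rw [e2, Function.update_self, Pi.add_apply, Function.update_self,
        Pi.single_eq_of_ne (nx_ne e.2).symm, add_zero]
    · rw [e2, Function.update_of_ne hj, Pi.add_apply, Function.update_of_ne hj]
      rfl

/-- first edge of a pair -/
def Fst (r : ℕ) (e : Eg k) : Prop := (e.1 (e.2 + 1) + r) % 2 = 1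

theorem sh_rad {r : ℕ} {e : Eg k} (h : Rad r e) (hf : Fst r e) :
    Rad r (sh e) ∧ ¬ Fst r (sh e) := by
  unfold Fst at hf ⊢
  have e2 : (sh e).2 = e.2 := rfl
  rw [rad_iff] at h ⊢
  rw [e2, sh_i, sh_nx]
  refine ⟨⟨h.1, fun j hj => ?_⟩, by omega⟩
  by_cases hj2 : j = e.2 + 1
  · subst hj2
    rw [sh_nx]
    have := h.2 (e.2 + 1) hj
    omega
  · rw [sh_j e hj2]
    exact h.2 j hj

theorem sh'_rad {r : ℕ} {e : Eg k} (h : Rad r e) (hf : ¬ Fst r e) :
    Rad r (sh' e) ∧ Fst r (sh' e) := by
  unfold Fst at hf ⊢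
  have e2 : (sh' e).2 = e.2 := rfl
  rw [rad_iff] at h ⊢
  rw [e2, sh'_i, sh'_nx]
  refine ⟨⟨h.1, fun j hj => ?_⟩, by omega⟩
  by_cases hj2 : j = e.2 + 1
  · subst hj2
    rw [sh'_nx]
    have := h.2 (e.2 + 1) hj
    omega
  · rw [sh'_j e hj2]
    exact h.2 j hj

/-- the tangential edge at level `r + m` -/
def tg (r m : ℕ) (e : Eg k) : Eg k := (lev r m e, e.2 + 1)

theorem tg_tl (r m : ℕ) (e : Eg k) : tl (tg r m e) = lev r m e := rfl

theorem tg_hd (r m : ℕ) (e : Eg k) : hd (tg r m e) = lev r m (sh e) := (lev_sh r m e).symm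

theorem rho_lev {r : ℕ} (m : ℕ) {e : Eg k} (h : Rad r e) : rho (lev r m e) = r + m := by
  have hp := h.pos
  rw [rad_iff] at h
  rw [rho_eq]
  unfold lev
  split_ifs with h1
  · refine ⟨fun j => ?_, e.2, Or.inl ?_⟩
    · by_cases hj : j = e.2
      · subst hj
        rw [Function.update_self]
        push_cast
        omega
      · rw [Function.update_of_ne hj]
        have := h.2 j hj
        push_cast
        omega
    · rw [Function.update_self]
      push_cast
      rfl
  · refine ⟨fun j => ?_, e.2, Or.inr ?_⟩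
    · by_cases hj : j = e.2
      · subst hj
        rw [Function.update_self]
        push_cast
        omega
      · rw [Function.update_of_ne hj]
        have := h.2 j hj
        push_cast
        omega
    · rw [Function.update_self]
      push_cast
      ring

theorem tg_tan {r : ℕ} (m : ℕ) {e : Eg k} (h : Rad r e) (hf : Fst r e) :
    Tan (r + m) (tg r m e) := by
  refine ⟨rho_lev m h, ?_⟩
  rw [tg_hd]
  exact rho_lev m (sh_rad h hf).1

theorem lev_inj {r m : ℕ} {e e' : Eg k} (h : Rad r e) (h' : Rad r e') (hi : e.2 = e'.2)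
    (hl : lev r m e = lev r m e') : e = e' := by
  have hp := h.pos
  have h1 := (rad_iff.1 h).1
  have h1' := (rad_iff.1 h').1
  obtain ⟨v, i⟩ := e
  obtain ⟨v', i'⟩ := e'
  simp only at hi h1 h1'
  subst hi
  have h2 := congrFun hl i
  have e0 : v i = v' i := by
    unfold lev at h2
    simp only at h2
    split_ifs at h2 with h3 h4 h4
    · rw [h3, h4]
    · rw [Function.update_self, Function.update_self] at h2
      omega
    · rw [Function.update_self, Function.update_self] at h2
      omega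
    · rw [h1.resolve_left h3, h1'.resolve_left h4]
  have ej : ∀ j, j ≠ i → v j = v' j := by
    intro j hj
    have h5 := congrFun hl j
    unfold lev at h5
    simp only at h5
    split_ifs at h5 <;> rw [Function.update_of_ne hj, Function.update_of_ne hj] at h5 <;> exact h5
  have : v = v' := by
    funext j
    by_cases hj : j = i
    · rw [hj]; exact e0
    · exact ej j hj
  rw [this]

theorem tg_inj {r m : ℕ} {e e' : Eg k} (h : Rad r e) (h' : Rad r e')
    (ht : tg r m e = tg r m e') : e = e' := by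
  obtain ⟨h1, h2⟩ := Prod.mk.inj ht
  exact lev_inj h h' (add_right_cancel h2) h1

/-- the next radial edge -/
def nxt (r : ℕ) (e : Eg k) : Eg k :=
  if e.1 e.2 = r then (Function.update e.1 e.2 ((r : ℤ) + 1), e.2)
  else (Function.update e.1 e.2 (-(r : ℤ) - 1), e.2)

theorem nxt_two (r : ℕ) (e : Eg k) : (nxt r e).2 = e.2 := by
  unfold nxt
  split_ifs <;> rfl

theorem nxt_ends {r : ℕ} {e : Eg k} :
    (lev r 1 e = tl (nxt r e) ∧ lev r 2 e = hd (nxt r e)) ∨
    (lev r 1 e = hd (nxt r e) ∧ lev r 2 e = tl (nxt r e)) := by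
  by_cases h : e.1 e.2 = r
  · left
    unfold nxt lev
    rw [if_pos h, if_pos h, if_pos h]
    constructor
    · show Function.update e.1 e.2 ((r : ℤ) + (1 : ℕ)) = Function.update e.1 e.2 ((r : ℤ) + 1)
      rfl
    · funext j
      show Function.update e.1 e.2 ((r : ℤ) + (2 : ℕ)) j =
        Function.update e.1 e.2 ((r : ℤ) + 1) j + (Pi.single e.2 1 : St k) j
      by_cases hj : j = e.2
      · subst hj
        rw [Function.update_self, Function.update_self, Pi.single_eq_same]
        push_cast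
        ring
      · rw [Function.update_of_ne hj, Function.update_of_ne hj, Pi.single_eq_of_ne hj, add_zero]
  · right
    unfold nxt lev
    rw [if_neg h, if_neg h, if_neg h]
    constructor
    · funext j
      show Function.update e.1 e.2 (-(r : ℤ) + 1 - (1 : ℕ)) j =
        Function.update e.1 e.2 (-(r : ℤ) - 1) j + (Pi.single e.2 1 : St k) j
      by_cases hj : j = e.2
      · subst hj
        rw [Function.update_self, Function.update_self, Pi.single_eq_same]
        push_cast
        ring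
      · rw [Function.update_of_ne hj, Function.update_of_ne hj, Pi.single_eq_of_ne hj, add_zero]
    · show Function.update e.1 e.2 (-(r : ℤ) + 1 - (2 : ℕ)) =
        Function.update e.1 e.2 (-(r : ℤ) - 1)
      congr 1
      push_cast
      ring

theorem nxt_rad {r : ℕ} {e : Eg k} (h : Rad r e) : Rad (r + 1) (nxt r e) := by
  have h1 := rho_lev 1 h
  have h2 := rho_lev 2 h
  unfold Rad
  rcases nxt_ends (r := r) (e := e) with ⟨h3, h4⟩ | ⟨h3, h4⟩
  · rw [← h3, ← h4, h1, h2]; omega
  · rw [← h3, ← h4, h1, h2]; omega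

theorem nxt_inj {r : ℕ} {e e' : Eg k} (h : Rad r e) (h' : Rad r e')
    (ht : nxt r e = nxt r e') : e = e' := by
  have hi : e.2 = e'.2 := by
    have := congrArg Prod.snd ht
    rw [nxt_two, nxt_two] at this
    exact this
  have r1 := rho_lev 1 h
  have r2 := rho_lev 2 h
  have r1' := rho_lev 1 h'
  have r2' := rho_lev 2 h'
  rcases nxt_ends (r := r) (e := e) with ⟨h3, h4⟩ | ⟨h3, h4⟩ <;>
  rcases nxt_ends (r := r) (e := e') with ⟨h5, h6⟩ | ⟨h5, h6⟩
  · exact lev_inj (m := 1) h h' hi (by rw [h3, h5, ht])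
  · rw [h3, ht, ← h6] at r1; omega
  · rw [h3, ht, ← h6] at r1; omega
  · exact lev_inj (m := 1) h h' hi (by rw [h3, h5, ht])

/-! ### Finite sets of edges -/

noncomputable def FF (L : ℕ) : Finset (Eg k) :=
  (Fintype.piFinset fun _ => Icc (-(L : ℤ) + 1) L) ×ˢ univ

theorem mem_FF {L : ℕ} {e : Eg k} : e ∈ FF L ↔ rho (tl e) ≤ L := by
  unfold FF
  rw [mem_product, Fintype.mem_piFinset, rho_le]
  simp only [mem_Icc, mem_univ, and_true]
  rfl

theorem card_FF (L : ℕ) : (FF L : Finset (Eg k)).card = (2 * L) ^ (k + 2) * (k + 2) := by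
  unfold FF
  rw [card_product, Fintype.card_piFinset]
  simp only [Int.card_Icc, prod_const, card_univ, Fintype.card_fin]
  congr 2
  omega

open Classical in
noncomputable def Rs (r : ℕ) : Finset (Eg k) := (FF (r + 1)).filter (Rad r)

open Classical in
noncomputable def Ts (r : ℕ) : Finset (Eg k) := (FF (r + 1)).filter (Tan r)

theorem mem_Rs {r : ℕ} {e : Eg k} : e ∈ Rs r ↔ Rad r e := by
  classical
  unfold Rs
  rw [mem_filter, mem_FF]
  refine ⟨fun h => h.2, fun h => ⟨?_, h⟩⟩
  have := rho_step e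
  have := h.2
  omega

theorem mem_Ts {r : ℕ} {e : Eg k} : e ∈ Ts r ↔ Tan r e := by
  classical
  unfold Ts
  rw [mem_filter, mem_FF]
  refine ⟨fun h => h.2, fun h => ⟨?_, h⟩⟩
  have := h.1
  omega

theorem card_Rs_le (r : ℕ) : (Rs r : Finset (Eg k)).card ≤ (2 * (r + 1)) ^ (k + 2) * (k + 2) := by
  classical
  rw [← card_FF]; exact card_le_card (filter_subset _ _)

theorem card_Ts_le (r : ℕ) : (Ts r : Finset (Eg k)).card ≤ (2 * (r + 1)) ^ (k + 2) * (k + 2) := by
  classical
  rw [← card_FF]; exact card_le_card (filter_subset _ _)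

open Classical in
theorem sum_pairs (r : ℕ) (h : Eg k → ℝ) :
    ∑ e ∈ Rs r, h e = ∑ e ∈ (Rs r).filter (Fst r), (h e + h (sh e)) := by
  rw [← sum_filter_add_sum_filter_not (Rs r) (Fst r) h, sum_add_distrib]
  congr 1
  refine (sum_nbij' sh sh' ?_ ?_ ?_ ?_ ?_).symm
  · intro e he
    rw [mem_filter, mem_Rs] at he ⊢
    exact sh_rad he.1 he.2
  · intro e he
    rw [mem_filter, mem_Rs] at he ⊢
    exact sh'_rad he.1 he.2
  · intro e _; exact sh'_sh e
  · intro e _; exact sh_sh' e
  · intro e _; rfl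

/-- decomposition of a sum over all edges -/
theorem fsum (f : Eg k → ℝ) (L : ℕ) (hf : ∀ e, f e ≠ 0 → rho (tl e) ≤ L ∧ rho (hd e) ≤ L) :
    ∑ᶠ e, f e = ∑ r ∈ range (L + 1), (∑ e ∈ Rs r, f e + ∑ e ∈ Ts r, f e) := by
  classical
  have hS : Function.support f ⊆
      (((range (L + 1)).biUnion fun r => Rs r ∪ Ts r : Finset (Eg k)) : Set (Eg k)) := by
    intro e he
    obtain ⟨h1, h2⟩ := hf e he
    rw [mem_coe, mem_biUnion]
    by_cases h3 : rho (tl e) = rho (hd e)
    · refine ⟨rho (tl e), mem_range.2 (by omega), mem_union_right _ (mem_Ts.2 ⟨rfl, h3.symm⟩)⟩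
    · refine ⟨min (rho (tl e)) (rho (hd e)), mem_range.2 (by omega),
        mem_union_left _ (mem_Rs.2 ⟨h3, rfl⟩)⟩
  rw [finsum_eq_sum_of_support_subset f hS, sum_biUnion]
  · refine sum_congr rfl fun r _ => ?_
    rw [sum_union]
    rw [Finset.disjoint_left]
    intro e h1 h2
    rw [mem_Rs] at h1
    rw [mem_Ts] at h2
    exact h1.1 (h2.1.trans h2.2.symm)
  · intro r _ r' _ hne
    show Disjoint (Rs r ∪ Ts r) (Rs r' ∪ Ts r')
    rw [Finset.disjoint_left]
    intro e h1 h2
    rw [mem_union, mem_Rs, mem_Ts] at h1 h2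
    apply hne
    unfold Rad Tan at h1 h2
    omega

end Pool.Agent.X59.GD
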