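import Pool.Agent.X59.GD.A
import Pool.Agent.TH761.EB.Gen

set_option autoImplicit false
set_option linter.unusedSectionVars false

/-! The energy inequality on annuli, dimension at least two. -/

open Finset

namespace Pool.Agent.X59.GD

open Pool.Agent.TH761.EB

variable {k : ℕ}

/-- the annulus -/
def ann (n R : ℕ) (v : St k) : Prop := n < rho v ∧ rho v ≤ R

open Classical in
/-- constant on the annulus, `σ` elsewhere -/
noncomputable def fl (n R : ℕ) (σ : St k → ℝ) (c : ℝ) (v : St k) : ℝ :=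
  if ann n R v then c else σ v

/-- the weight of an edge in the averaged inequality -/
noncomputable def be (n R : ℕ) (σ : St k → ℝ) (u v : St k) : ℝ :=
  σ u * σ v - (fl n R σ 1 u * fl n R σ 1 v + fl n R σ (-1) u * fl n R σ (-1) v) / 2

theorem be_in {n R : ℕ} {σ : St k → ℝ} {u v : St k} (hu : ann n R u)
    (hv : ann n R v) : be n R σ u v = σ u * σ v - 1 := by
  simp only [be, fl, if_pos hu, if_pos hv]; norm_num

theorem be_l {n R : ℕ} {σ : St k → ℝ} {u v : St k} (hu : ann n R u)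
    (hv : ¬ ann n R v) : be n R σ u v = σ u * σ v := by
  simp only [be, fl, if_pos hu, if_neg hv]; ring

theorem be_r {n R : ℕ} {σ : St k → ℝ} {u v : St k} (hu : ¬ ann n R u)
    (hv : ann n R v) : be n R σ u v = σ u * σ v := by
  simp only [be, fl, if_neg hu, if_pos hv]; ring

theorem be_out {n R : ℕ} {σ : St k → ℝ} {u v : St k} (hu : ¬ ann n R u)
    (hv : ¬ ann n R v) : be n R σ u v = 0 := by
  simp only [be, fl, if_neg hu, if_neg hv]; ring

theorem mul_sign {σ : St k → ℝ} (hσ : ∀ v, σ v = 1 ∨ σ v = -1) (u v : St k) :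
    σ u * σ v = 1 ∨ σ u * σ v = -1 := by
  rcases hσ u with h | h <;> rcases hσ v with h' | h' <;> rw [h, h'] <;> norm_num

theorem be_abs {n R : ℕ} {σ : St k → ℝ} (hσ : ∀ v, σ v = 1 ∨ σ v = -1)
    (u v : St k) : |be n R σ u v| ≤ 2 := by
  by_cases hu : ann n R u <;> by_cases hv : ann n R v
  · rw [be_in hu hv]
    rcases mul_sign hσ u v with h | h <;> rw [h] <;> norm_num [abs_le]
  · rw [be_l hu hv]
    rcases mul_sign hσ u v with h | h <;> rw [h] <;> norm_num [abs_le]
  · rw [be_r hu hv]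
    rcases mul_sign hσ u v with h | h <;> rw [h] <;> norm_num [abs_le]
  · rw [be_out hu hv]; norm_num

theorem fin_rho (R : ℕ) : {v : St k | rho v ≤ R}.Finite := by
  refine (Set.finite_Icc (fun _ => -(R : ℤ) + 1 : St k) (fun _ => (R : ℤ))).subset fun v hv => ?_
  have hv' := rho_le.1 hv
  exact ⟨fun i => (hv' i).1, fun i => (hv' i).2⟩

/-- sums over all edges up to radius `R + 1` -/
noncomputable def tot (f : Eg k → ℝ) (R : ℕ) : ℝ :=
  ∑ r ∈ range (R + 2), (∑ e ∈ Rs r, f e + ∑ e ∈ Ts r, f e)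

theorem tot_add (f g : Eg k → ℝ) (R : ℕ) : tot (fun e => f e + g e) R = tot f R + tot g R := by
  unfold tot
  rw [← sum_add_distrib]
  refine sum_congr rfl fun r _ => ?_
  rw [sum_add_distrib, sum_add_distrib]
  ring

theorem tot_mul (c : ℝ) (f : Eg k → ℝ) (R : ℕ) : tot (fun e => c * f e) R = c * tot f R := by
  unfold tot
  rw [mul_sum]
  refine sum_congr rfl fun r _ => ?_
  rw [← mul_sum, ← mul_sum]
  ring

theorem tot_mono {f g : Eg k → ℝ} (h : ∀ e, f e ≤ g e) (R : ℕ) : tot f R ≤ tot g R :=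
  sum_le_sum fun _ _ => add_le_add (sum_le_sum fun _ _ => h _) (sum_le_sum fun _ _ => h _)

theorem energy {J : Eg k → ℝ} {σ : St k → ℝ} (h : GS tl hd Set.univ J σ) (n R : ℕ) :
    0 ≤ tot (fun e => J e * be n R σ (tl e) (hd e)) R := by
  have key : ∀ c : ℝ, (c = 1 ∨ c = -1) → 0 ≤ tot (fun e => J e * (σ (tl e) * σ (hd e) -
      fl n R σ c (tl e) * fl n R σ c (hd e))) R := by
    intro c hc
    have h1 := fsum (fun e => J e * (σ (tl e) * σ (hd e) -
      fl n R σ c (tl e) * fl n R σ c (hd e))) (R + 1) (by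
        intro e he
        have h2 : ann n R (tl e) ∨ ann n R (hd e) := by
          by_contra hcon
          push Not at hcon
          apply he
          simp only [fl, if_neg hcon.1, if_neg hcon.2]
          ring
        have h3 := rho_step e
        rcases h2 with h2 | h2 <;> have := h2.2 <;> omega)
    unfold tot
    rw [← h1]
    by_cases hne : fl n R σ c = σ
    · rw [hne]
      simp
    · refine (h.2 (fl n R σ c) ⟨fun v _ => ?_, fun v hv => absurd (Set.mem_univ v) hv⟩ ?_ hne).le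
      · unfold fl
        split_ifs
        · exact hc
        · exact h.1.1 v (Set.mem_univ v)
      · refine (fin_rho R).subset fun v hv => ?_
        by_contra hcon
        apply hv
        have : ¬ ann n R v := fun h => hcon h.2
        simp only [fl, if_neg this]
  have h1 := key 1 (Or.inl rfl)
  have h2 := key (-1) (Or.inr rfl)
  have h3 : 2 * tot (fun e => J e * be n R σ (tl e) (hd e)) R =
      tot (fun e => J e * (σ (tl e) * σ (hd e) -
        fl n R σ 1 (tl e) * fl n R σ 1 (hd e))) R +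
      tot (fun e => J e * (σ (tl e) * σ (hd e) -
        fl n R σ (-1) (tl e) * fl n R σ (-1) (hd e))) R := by
    rw [← tot_mul, ← tot_add]
    congr 1
    funext e
    unfold be
    ring
  linarith

/-- alternating signs -/
noncomputable def alt (y : ℤ) : ℝ := if Even y then 1 else -1

theorem alt_succ (y : ℤ) : alt (y + 1) = -alt y := by
  unfold alt
  by_cases h : Even y
  · rw [if_pos h, if_neg (by rw [Int.even_add_one]; exact not_not.2 h)]
  · rw [if_neg h, if_pos (by rw [Int.even_add_one]; exact h), neg_neg]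

theorem alt_sign (y : ℤ) : alt y = 1 ∨ alt y = -1 := by
  unfold alt
  split_ifs
  · left; rfl
  · right; rfl

open Classical in
/-- the pattern outside the box of radius `n` -/
noncomputable def pat (n : ℕ) (e : Eg k) : ℝ :=
  if rho (tl e) ≠ rho (hd e) ∧ n < min (rho (tl e)) (rho (hd e)) ∧
    3 ∣ (min (rho (tl e)) (rho (hd e)) - n) then alt (e.1 (e.2 + 1)) else 1

/-- number of edges -/
noncomputable def NN (k R : ℕ) : ℕ :=
  ∑ r ∈ range (R + 2), ((Rs r : Finset (Eg k)).card + (Ts r : Finset (Eg k)).card)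

theorem tot_const (c : ℝ) (R : ℕ) : tot (fun _ : Eg k => c) R = NN k R * c := by
  unfold tot NN
  simp only [sum_const, nsmul_eq_mul]
  push_cast
  rw [sum_mul]
  refine sum_congr rfl fun r _ => ?_
  ring

theorem NN_mono {R R' : ℕ} (h : R ≤ R') : NN k R ≤ NN k R' :=
  sum_le_sum_of_subset_of_nonneg (range_mono (by omega)) fun _ _ _ => Nat.zero_le _

/-- the inequality for couplings close to the pattern -/
theorem energy' {J : Eg k → ℝ} {σ : St k → ℝ} (h : GS tl hd Set.univ J σ) {n R : ℕ}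
    {a δ : ℝ} (ha : 0 < a) (hδ : 0 ≤ δ) (hδ' : δ * (2 * (NN k R : ℝ)) ≤ 1)
    (hJ : ∀ e, rho (tl e) ≤ R + 1 → rho (hd e) ≤ R + 1 → ¬ (rho (tl e) ≤ n ∧ rho (hd e) ≤ n) →
      |J e - a * pat n e| ≤ a * δ) :
    -1 ≤ tot (fun e => pat n e * be n R σ (tl e) (hd e)) R := by
  have hσ : ∀ v, σ v = 1 ∨ σ v = -1 := fun v => h.1.1 v (Set.mem_univ v)
  have h0 := energy h n R
  have haδ : 0 ≤ a * δ := by positivity
  have h1 : tot (fun e => J e * be n R σ (tl e) (hd e)) R ≤
      tot (fun e => a * (pat n e * be n R σ (tl e) (hd e)) + 2 * (a * δ)) R := by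
    refine tot_mono (fun e => ?_) R
    by_cases hb : be n R σ (tl e) (hd e) = 0
    · simp only [hb, mul_zero]
      linarith
    · have h2 : ann n R (tl e) ∨ ann n R (hd e) := by
        by_contra hcon
        push Not at hcon
        exact hb (be_out hcon.1 hcon.2)
      have h3 := rho_step e
      have h5 := hJ e (by rcases h2 with h2 | h2 <;> have := h2.2 <;> omega)
        (by rcases h2 with h2 | h2 <;> have := h2.2 <;> omega)
        (by rcases h2 with h2 | h2 <;> have := h2.1 <;> omega)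
      have h4 := be_abs (n := n) (R := R) hσ (tl e) (hd e)
      have h6 : (J e - a * pat n e) * be n R σ (tl e) (hd e) ≤ (a * δ) * 2 := by
        refine (le_abs_self _).trans ?_
        rw [abs_mul]
        exact mul_le_mul h5 h4 (abs_nonneg _) haδ
      linarith
  have h2 := h0.trans h1
  rw [tot_add, tot_mul, tot_const] at h2
  have h6 : (NN k R : ℝ) * (2 * (a * δ)) ≤ a := by
    calc (NN k R : ℝ) * (2 * (a * δ)) = a * (δ * (2 * (NN k R : ℝ))) := by ring
      _ ≤ a * 1 := mul_le_mul_of_nonneg_left hδ' ha.le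
      _ = a := mul_one a
  by_contra hcon
  push Not at hcon
  nlinarith

/-! ### The energy of the pattern -/

/-- the energy density -/
noncomputable def GG (n R : ℕ) (σ : St k → ℝ) (e : Eg k) : ℝ :=
  pat n e * be n R σ (tl e) (hd e)

/-- change along an edge -/
noncomputable def ch (σ : St k → ℝ) (e : Eg k) : ℝ := (1 - σ (tl e) * σ (hd e)) / 2

noncomputable def kk (σ : St k → ℝ) (r : ℕ) : ℝ := ∑ e ∈ Ts r, ch σ e

noncomputable def uu (σ : St k → ℝ) (r : ℕ) : ℝ := ∑ e ∈ Rs r, ch σ e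

open Classical in
noncomputable def zz (σ : St k → ℝ) (r m : ℕ) : ℝ :=
  ∑ e ∈ (Rs r).filter (Fst r), ch σ (tg r m e)

theorem inj_sum {α β : Type} [DecidableEq β] {S : Finset α} {T : Finset β} {φ : α → β}
    {g : β → ℝ} (hg : ∀ b, 0 ≤ g b) (hm : ∀ x ∈ S, φ x ∈ T)
    (hi : ∀ x ∈ S, ∀ y ∈ S, φ x = φ y → x = y) : ∑ x ∈ S, g (φ x) ≤ ∑ b ∈ T, g b := by
  rw [← sum_image (f := g) (g := φ) (fun x hx y hy h => hi x hx y hy h)]
  exact sum_le_sum_of_subset_of_nonneg (image_subset_iff.2 hm) fun _ _ _ => hg _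

section
variable {σ : St k → ℝ} (hσ : ∀ v, σ v = 1 ∨ σ v = -1)
include hσ

theorem ch_nonneg (e : Eg k) : 0 ≤ ch σ e := by
  unfold ch
  rcases mul_sign hσ (tl e) (hd e) with h | h <;> rw [h] <;> norm_num

theorem ch_le (e : Eg k) : ch σ e ≤ 1 := by
  unfold ch
  rcases mul_sign hσ (tl e) (hd e) with h | h <;> rw [h] <;> norm_num

theorem kk_nonneg (r : ℕ) : 0 ≤ kk σ r := sum_nonneg fun _ _ => ch_nonneg hσ _

theorem uu_nonneg (r : ℕ) : 0 ≤ uu σ r := sum_nonneg fun _ _ => ch_nonneg hσ _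

theorem zz_le_kk (r m : ℕ) : zz σ r m ≤ kk σ (r + m) := by
  classical
  unfold zz kk
  refine inj_sum (g := ch σ) (ch_nonneg hσ) ?_ ?_
  · intro e he
    rw [mem_filter, mem_Rs] at he
    exact mem_Ts.2 (tg_tan m he.1 he.2)
  · intro e he e' he' h
    rw [mem_filter, mem_Rs] at he he'
    exact tg_inj he.1 he'.1 h

theorem zz_le (r : ℕ) : zz σ r 1 ≤ uu σ (r + 1) + kk σ (r + 2) := by
  classical
  have h1 : zz σ r 1 ≤ ∑ e ∈ (Rs r).filter (Fst r), (ch σ (nxt r e) + ch σ (nxt r (sh e))) +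
      zz σ r 2 := by
    unfold zz
    rw [← sum_add_distrib]
    refine sum_le_sum fun e he => ?_
    have e1 : ch σ (nxt r e) = (1 - σ (lev r 1 e) * σ (lev r 2 e)) / 2 := by
      unfold ch
      rcases nxt_ends (r := r) (e := e) with ⟨h3, h4⟩ | ⟨h3, h4⟩
      · rw [h3, h4]
      · rw [h3, h4]; ring
    have e2 : ch σ (nxt r (sh e)) = (1 - σ (lev r 1 (sh e)) * σ (lev r 2 (sh e))) / 2 := by
      unfold ch
      rcases nxt_ends (r := r) (e := sh e) with ⟨h3, h4⟩ | ⟨h3, h4⟩
      · rw [h3, h4]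
      · rw [h3, h4]; ring
    rw [e1, e2]
    unfold ch
    rw [tg_tl, tg_hd, tg_tl, tg_hd]
    rcases hσ (lev r 1 e) with h5 | h5 <;> rcases hσ (lev r 2 e) with h6 | h6 <;>
    rcases hσ (lev r 1 (sh e)) with h7 | h7 <;> rcases hσ (lev r 2 (sh e)) with h8 | h8 <;>
    rw [h5, h6, h7, h8] <;> norm_num
  rw [← sum_pairs r fun e => ch σ (nxt r e)] at h1
  have h2 : ∑ e ∈ Rs r, ch σ (nxt r e) ≤ uu σ (r + 1) := by
    unfold uu
    refine inj_sum (g := ch σ) (ch_nonneg hσ) ?_ ?_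
    · intro e he
      rw [mem_Rs] at he ⊢
      exact nxt_rad he
    · intro e he e' he' h
      rw [mem_Rs] at he he'
      exact nxt_inj he he' h
  have h3 := zz_le_kk hσ r 2
  linarith

open Classical in
/-- the sum over an interface -/
theorem interface (r : ℕ) : ∑ e ∈ (Rs r).filter (Fst r), alt (e.1 (e.2 + 1)) *
    (σ (tl e) * σ (hd e) - σ (tl (sh e)) * σ (hd (sh e))) ≤ 2 * kk σ r + 2 * zz σ r 1 := by
  have h0 := zz_le_kk hσ r 0
  rw [add_zero] at h0
  have h1 : ∑ e ∈ (Rs r).filter (Fst r), alt (e.1 (e.2 + 1)) *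
      (σ (tl e) * σ (hd e) - σ (tl (sh e)) * σ (hd (sh e))) ≤ 2 * zz σ r 0 + 2 * zz σ r 1 := by
    unfold zz
    rw [mul_sum, mul_sum, ← sum_add_distrib]
    refine sum_le_sum fun e he => ?_
    rw [mem_filter, mem_Rs] at he
    have e1 : σ (tl e) * σ (hd e) = σ (lev r 0 e) * σ (lev r 1 e) := by
      rcases lev_ends he.1 with ⟨h3, h4⟩ | ⟨h3, h4⟩
      · rw [h3, h4]
      · rw [h3, h4]; ring
    have e2 : σ (tl (sh e)) * σ (hd (sh e)) = σ (lev r 0 (sh e)) * σ (lev r 1 (sh e)) := by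
      rcases lev_ends (sh_rad he.1 he.2).1 with ⟨h3, h4⟩ | ⟨h3, h4⟩
      · rw [h3, h4]
      · rw [h3, h4]; ring
    rw [e1, e2]
    unfold ch
    rw [tg_tl, tg_hd, tg_tl, tg_hd]
    rcases hσ (lev r 0 e) with h5 | h5 <;> rcases hσ (lev r 1 e) with h6 | h6 <;>
    rcases hσ (lev r 0 (sh e)) with h7 | h7 <;> rcases hσ (lev r 1 (sh e)) with h8 | h8 <;>
    rcases alt_sign (e.1 (e.2 + 1)) with h9 | h9 <;>
    rw [h5, h6, h7, h8, h9] <;> norm_num
  linarith

end

variable {σ : St k → ℝ} {n R : ℕ}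

theorem pat_tan {r : ℕ} {e : Eg k} (h : Tan r e) : pat n e = 1 := by
  unfold pat
  rw [if_neg]
  exact fun h' => h'.1 (h.1.trans h.2.symm)

theorem pat_int {r : ℕ} {e : Eg k} (h : Rad r e) (h1 : n < r) (h2 : 3 ∣ (r - n)) :
    pat n e = alt (e.1 (e.2 + 1)) := by
  unfold pat
  rw [if_pos]
  rw [h.2]
  exact ⟨h.1, h1, h2⟩

theorem pat_ord {r : ℕ} {e : Eg k} (h : Rad r e) (h1 : ¬ (n < r ∧ 3 ∣ (r - n))) :
    pat n e = 1 := by
  unfold pat
  rw [if_neg]
  rw [h.2]
  exact fun h' => h1 h'.2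

theorem T_in {r : ℕ} (h1 : n < r) (h2 : r ≤ R) :
    ∑ e ∈ Ts r, GG n R σ e = -2 * kk σ r := by
  unfold kk
  rw [mul_sum]
  refine sum_congr rfl fun e he => ?_
  rw [mem_Ts] at he
  unfold GG ch
  rw [pat_tan he, be_in ⟨by rw [he.1]; exact h1, by rw [he.1]; exact h2⟩
    ⟨by rw [he.2]; exact h1, by rw [he.2]; exact h2⟩]
  ring

theorem T_out {r : ℕ} (h1 : ¬ (n < r ∧ r ≤ R)) :
    ∑ e ∈ Ts r, GG n R σ e = 0 := by
  refine sum_eq_zero fun e he => ?_
  rw [mem_Ts] at he
  unfold GG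
  rw [be_out, mul_zero]
  · intro h; apply h1; unfold ann at h; rw [he.1] at h; exact h
  · intro h; apply h1; unfold ann at h; rw [he.2] at h; exact h

theorem R_lo {r : ℕ} (h : r < n) : ∑ e ∈ Rs r, GG n R σ e = 0 := by
  refine sum_eq_zero fun e he => ?_
  rw [mem_Rs] at he
  have h1 := rho_step e
  have h2 := he.2
  unfold GG
  rw [be_out, mul_zero]
  · intro h3; have := h3.1; omega
  · intro h3; have := h3.1; omega

theorem R_hi {r : ℕ} (h : R < r) : ∑ e ∈ Rs r, GG n R σ e = 0 := by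
  refine sum_eq_zero fun e he => ?_
  rw [mem_Rs] at he
  have h1 := rho_step e
  have h2 := he.2
  unfold GG
  rw [be_out, mul_zero]
  · intro h3; have := h3.2; omega
  · intro h3; have := h3.2; omega

theorem be_one {u v : St k} (h : (ann n R u ∧ ¬ ann n R v) ∨ (¬ ann n R u ∧ ann n R v)) :
    be n R σ u v = σ u * σ v := by
  rcases h with ⟨h1, h2⟩ | ⟨h1, h2⟩
  · exact be_l h1 h2
  · exact be_r h1 h2

theorem R_n (hσ : ∀ v, σ v = 1 ∨ σ v = -1) (h : n < R) :
    ∑ e ∈ Rs n, GG n R σ e ≤ ((Rs n : Finset (Eg k)).card : ℝ) := by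
  calc _ ≤ ∑ _e ∈ (Rs n : Finset (Eg k)), (1 : ℝ) := by
        refine sum_le_sum fun e he => ?_
        rw [mem_Rs] at he
        have h1 := rho_step e
        have h2 := he.2
        have h3 := he.1
        unfold GG
        rw [pat_ord he (fun h' => lt_irrefl _ h'.1), be_one (by unfold ann; omega)]
        rcases mul_sign hσ (tl e) (hd e) with h4 | h4 <;> rw [h4] <;> norm_num
    _ = _ := by simp

theorem R_ord {r : ℕ} (h1 : n < r) (h2 : r < R) (h3 : ¬ 3 ∣ (r - n)) :
    ∑ e ∈ Rs r, GG n R σ e = -2 * uu σ r := by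
  unfold uu
  rw [mul_sum]
  refine sum_congr rfl fun e he => ?_
  rw [mem_Rs] at he
  have h4 := rho_step e
  have h5 := he.2
  unfold GG ch
  rw [pat_ord he (fun h' => h3 h'.2), be_in (by unfold ann; omega) (by unfold ann; omega)]
  ring

theorem R_int (hσ : ∀ v, σ v = 1 ∨ σ v = -1) {r : ℕ} (h1 : n < r) (h2 : r < R)
    (h3 : 3 ∣ (r - n)) : ∑ e ∈ Rs r, GG n R σ e ≤ 2 * kk σ r + 2 * zz σ r 1 := by
  classical
  rw [sum_pairs]
  refine le_trans (le_of_eq ?_) (interface hσ r)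
  refine sum_congr rfl fun e he => ?_
  rw [mem_filter, mem_Rs] at he
  obtain ⟨he, hf⟩ := he
  have he' := (sh_rad he hf).1
  have h4 := rho_step e
  have h5 := he.2
  have h4' := rho_step (sh e)
  have h5' := he'.2
  have ea : alt ((sh e).1 ((sh e).2 + 1)) = -alt (e.1 (e.2 + 1)) := by
    have : (sh e).1 ((sh e).2 + 1) = e.1 (e.2 + 1) + 1 := sh_nx e
    rw [this, alt_succ]
  unfold GG
  rw [pat_int he h1 h3, pat_int he' h1 h3, be_in (by unfold ann; omega) (by unfold ann; omega),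
    be_in (by unfold ann; omega) (by unfold ann; omega), ea]
  ring

theorem R_top (hσ : ∀ v, σ v = 1 ∨ σ v = -1) (h1 : n < R)
    (h3 : 3 ∣ (R - n)) : ∑ e ∈ Rs R, GG n R σ e ≤ 2 * kk σ R + 2 * zz σ R 1 := by
  classical
  rw [sum_pairs]
  refine le_trans (le_of_eq ?_) (interface hσ R)
  refine sum_congr rfl fun e he => ?_
  rw [mem_filter, mem_Rs] at he
  obtain ⟨he, hf⟩ := he
  have he' := (sh_rad he hf).1
  have h4 := rho_step e
  have h5 := he.2
  have h6 := he.1
  have h4' := rho_step (sh e)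
  have h5' := he'.2
  have h6' := he'.1
  have ea : alt ((sh e).1 ((sh e).2 + 1)) = -alt (e.1 (e.2 + 1)) := by
    have : (sh e).1 ((sh e).2 + 1) = e.1 (e.2 + 1) + 1 := sh_nx e
    rw [this, alt_succ]
  unfold GG
  rw [pat_int he h1 h3, pat_int he' h1 h3, be_one (by unfold ann; omega),
    be_one (by unfold ann; omega), ea]
  ring

end Pool.Agent.X59.GD
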