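import Pool.Agent.X59.GD.B

set_option autoImplicit false
set_option linter.unusedSectionVars false

/-! Growth of the number of changes; ground states agree on the box. -/

open Finset Filter

namespace Pool.Agent.X59.GD

open Pool.Agent.TH761.EB

variable {k : ℕ}

/-- number of changes in the first `j` blocks -/
noncomputable def XX (σ : St k → ℝ) (n j : ℕ) : ℝ :=
  ∑ i ∈ range j, (uu σ (n + 3 * i + 1) + uu σ (n + 3 * i + 2) + kk σ (n + 3 * i + 2))

noncomputable def EE (n R : ℕ) (σ : St k → ℝ) (r : ℕ) : ℝ :=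
  ∑ e ∈ Rs r, GG n R σ e + ∑ e ∈ Ts r, GG n R σ e

theorem part {σ : St k → ℝ} (hσ : ∀ v, σ v = 1 ∨ σ v = -1) {n R : ℕ} (j : ℕ)
    (hj : n + 3 * (j + 1) ≤ R) :
    ∑ r ∈ range (n + 3 * (j + 1)), EE n R σ r ≤
      ((Rs n : Finset (Eg k)).card : ℝ) - 2 * XX σ n (j + 1) := by
  induction j with
  | zero =>
    have h1 : ∑ r ∈ range n, EE n R σ r = 0 := by
      refine sum_eq_zero fun r hr => ?_
      have := mem_range.1 hr
      unfold EE
      rw [R_lo (by omega), T_out (by omega), add_zero]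
    rw [show n + 3 * (0 + 1) = n + 1 + 1 + 1 by ring, sum_range_succ, sum_range_succ,
      sum_range_succ, h1]
    unfold XX EE
    rw [sum_range_one, T_out (r := n) (by omega), T_in (r := n + 1) (by omega) (by omega),
      T_in (r := n + 1 + 1) (by omega) (by omega),
      R_ord (r := n + 1) (by omega) (by omega) (by omega),
      R_ord (r := n + 1 + 1) (by omega) (by omega) (by omega)]
    have h2 := R_n (n := n) (R := R) hσ (by omega)
    have h3 := kk_nonneg hσ (n + 1)
    simp only [Nat.mul_zero, Nat.add_zero] at *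
    have e1 : n + 2 = n + 1 + 1 := rfl
    rw [e1]
    linarith
  | succ j ih =>
    have ih := ih (by omega)
    rw [show n + 3 * (j + 1 + 1) = n + 3 * (j + 1) + 1 + 1 + 1 by ring, sum_range_succ,
      sum_range_succ, sum_range_succ]
    have e0 : XX σ n (j + 1 + 1) = XX σ n (j + 1) + (uu σ (n + 3 * (j + 1) + 1) +
      uu σ (n + 3 * (j + 1) + 2) + kk σ (n + 3 * (j + 1) + 2)) := sum_range_succ _ _
    rw [e0]
    have h1 : EE n R σ (n + 3 * (j + 1)) ≤ 2 * zz σ (n + 3 * (j + 1)) 1 := by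
      unfold EE
      rw [T_in (by omega) (by omega)]
      have := R_int (n := n) (R := R) hσ (r := n + 3 * (j + 1)) (by omega) (by omega) (by omega)
      linarith
    have h2 : EE n R σ (n + 3 * (j + 1) + 1) =
        -2 * uu σ (n + 3 * (j + 1) + 1) + -2 * kk σ (n + 3 * (j + 1) + 1) := by
      unfold EE
      rw [T_in (by omega) (by omega), R_ord (by omega) (by omega) (by omega)]
    have h3 : EE n R σ (n + 3 * (j + 1) + 1 + 1) =
        -2 * uu σ (n + 3 * (j + 1) + 2) + -2 * kk σ (n + 3 * (j + 1) + 2) := by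
      unfold EE
      rw [T_in (by omega) (by omega), R_ord (by omega) (by omega) (by omega)]
    have h4 := zz_le_kk hσ (n + 3 * (j + 1)) 1
    linarith

theorem total {σ : St k → ℝ} (hσ : ∀ v, σ v = 1 ∨ σ v = -1) {n : ℕ} (j : ℕ) :
    tot (fun e => pat n e * be n (n + 3 * (j + 1)) σ (tl e) (hd e)) (n + 3 * (j + 1)) ≤
      ((Rs n : Finset (Eg k)).card : ℝ) - 2 * XX σ n (j + 1) +
      2 * (uu σ (n + 3 * (j + 1) + 1) + kk σ (n + 3 * (j + 1) + 2)) := by
  have e1 : tot (fun e => pat n e * be n (n + 3 * (j + 1)) σ (tl e) (hd e))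
      (n + 3 * (j + 1)) = ∑ r ∈ range (n + 3 * (j + 1) + 1 + 1), EE n (n + 3 * (j + 1)) σ r := rfl
  rw [e1, sum_range_succ, sum_range_succ]
  have h1 := part (n := n) (R := n + 3 * (j + 1)) hσ j le_rfl
  have h2 : EE n (n + 3 * (j + 1)) σ (n + 3 * (j + 1)) ≤ 2 * zz σ (n + 3 * (j + 1)) 1 := by
    unfold EE
    rw [T_in (by omega) (by omega)]
    have := R_top (n := n) (R := n + 3 * (j + 1)) hσ (by omega) (by omega)
    linarith
  have h3 : EE n (n + 3 * (j + 1)) σ (n + 3 * (j + 1) + 1) = 0 := by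
    unfold EE
    rw [R_hi (by omega), T_out (by omega), add_zero]
  have h4 := zz_le hσ (n + 3 * (j + 1))
  linarith

theorem exists_i (D A p : ℕ) : ∃ i : ℕ, (D : ℝ) * ((A : ℝ) + 3 * i) ^ p < 2 ^ i := by
  have h1 := tendsto_pow_const_div_const_pow_of_one_lt p (show (1 : ℝ) < 2 by norm_num)
  have h2 : (0 : ℝ) < 1 / (((D : ℝ) + 1) * ((A : ℝ) + 3) ^ p) := by positivity
  obtain ⟨i, hi, hi1⟩ := ((h1.eventually (gt_mem_nhds h2)).and (eventually_ge_atTop 1)).exists
  refine ⟨i, ?_⟩
  have h3 : (1 : ℝ) ≤ i := by exact_mod_cast hi1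
  have h4 : (A : ℝ) + 3 * i ≤ ((A : ℝ) + 3) * i := by nlinarith [Nat.cast_nonneg (α := ℝ) A]
  have h5 : ((A : ℝ) + 3 * i) ^ p ≤ (((A : ℝ) + 3) * i) ^ p :=
    pow_le_pow_left₀ (by positivity) h4 p
  rw [div_lt_div_iff₀ (by positivity) (by positivity), one_mul] at hi
  calc (D : ℝ) * ((A : ℝ) + 3 * i) ^ p ≤ ((D : ℝ) + 1) * (((A : ℝ) + 3) * i) ^ p :=
        mul_le_mul (by linarith) h5 (by positivity) (by positivity)
    _ = (i : ℝ) ^ p * (((D : ℝ) + 1) * ((A : ℝ) + 3) ^ p) := by rw [mul_pow]; ring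
    _ < 2 ^ i := hi

/-- number of blocks -/
noncomputable def MM (k n : ℕ) : ℕ := (Rs n : Finset (Eg k)).card + 4

/-- number of doublings -/
noncomputable def i0 (k n : ℕ) : ℕ :=
  Classical.choose (exists_i ((k + 2) * 2 ^ (k + 3)) (n + 3 * MM k n) (k + 3))

theorem i0_spec (k n : ℕ) : (((k + 2) * 2 ^ (k + 3) : ℕ) : ℝ) *
    (((n + 3 * MM k n : ℕ) : ℝ) + 3 * i0 k n) ^ (k + 3) < 2 ^ (i0 k n) :=
  Classical.choose_spec (exists_i ((k + 2) * 2 ^ (k + 3)) (n + 3 * MM k n) (k + 3))

/-- radius of the pattern -/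
noncomputable def LL (k n : ℕ) : ℕ := n + 3 * (MM k n + i0 k n)

/-- precision of the pattern -/
noncomputable def dl (k n : ℕ) : ℝ := 1 / (2 * (NN k (LL k n) : ℝ) + 1)

theorem dl_pos (k n : ℕ) : 0 < dl k n := by unfold dl; positivity

/-- the couplings are close to `a` times the pattern outside the box of radius `n` -/
def Near (a : ℝ) (n : ℕ) (J : Eg k → ℝ) : Prop :=
  ∀ e, rho (tl e) ≤ LL k n → rho (hd e) ≤ LL k n → ¬ (rho (tl e) ≤ n ∧ rho (hd e) ≤ n) →
    |J e - a * pat n e| < a * dl k n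

variable {J : Eg k → ℝ} {σ τ : St k → ℝ} {n : ℕ} {a : ℝ}

theorem XX_low (ha : 0 < a) (hJ : Near a n J) (h : GS tl hd Set.univ J σ) {j : ℕ}
    (hj' : n + 3 * (j + 1) + 1 ≤ LL k n) :
    2 * XX σ n (j + 1) ≤ ((Rs n : Finset (Eg k)).card : ℝ) + 1 +
      2 * (uu σ (n + 3 * (j + 1) + 1) + kk σ (n + 3 * (j + 1) + 2)) := by
  have hσ : ∀ v, σ v = 1 ∨ σ v = -1 := fun v => h.1.1 v (Set.mem_univ v)
  have h1 := energy' h (n := n) (R := n + 3 * (j + 1)) ha (dl_pos k n).le (by
    have h2 : (NN k (n + 3 * (j + 1)) : ℝ) ≤ NN k (LL k n) := by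
      exact_mod_cast NN_mono (by omega)
    have h3 : (0 : ℝ) ≤ NN k (LL k n) := Nat.cast_nonneg _
    unfold dl
    rw [div_mul_eq_mul_div, one_mul, div_le_one (by positivity)]
    linarith) (by
    intro e h2 h3 h4
    exact (hJ e (by omega) (by omega) h4).le)
  have h2 := total (n := n) hσ j
  linarith

theorem XX_nonneg (hσ : ∀ v, σ v = 1 ∨ σ v = -1) (j : ℕ) : 0 ≤ XX σ n j :=
  sum_nonneg fun _ _ => add_nonneg (add_nonneg (uu_nonneg hσ _) (uu_nonneg hσ _))
    (kk_nonneg hσ _)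

theorem uu_le (hσ : ∀ v, σ v = 1 ∨ σ v = -1) (r : ℕ) :
    uu σ r ≤ (((2 * (r + 1)) ^ (k + 2) * (k + 2) : ℕ) : ℝ) := by
  unfold uu
  calc _ ≤ ∑ _e ∈ (Rs r : Finset (Eg k)), (1 : ℝ) := sum_le_sum fun e _ => ch_le hσ e
    _ = ((Rs r : Finset (Eg k)).card : ℝ) := by simp
    _ ≤ _ := by exact_mod_cast card_Rs_le r

theorem kk_le (hσ : ∀ v, σ v = 1 ∨ σ v = -1) (r : ℕ) :
    kk σ r ≤ (((2 * (r + 1)) ^ (k + 2) * (k + 2) : ℕ) : ℝ) := by
  unfold kk
  calc _ ≤ ∑ _e ∈ (Ts r : Finset (Eg k)), (1 : ℝ) := sum_le_sum fun e _ => ch_le hσ e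
    _ = ((Ts r : Finset (Eg k)).card : ℝ) := by simp
    _ ≤ _ := by exact_mod_cast card_Ts_le r

theorem XX_le (hσ : ∀ v, σ v = 1 ∨ σ v = -1) (j : ℕ) :
    XX σ n j ≤ (((k + 2) * 2 ^ (k + 3) : ℕ) : ℝ) * ((n : ℝ) + 3 * j) ^ (k + 3) := by
  unfold XX
  have hb : ∀ r, r + 1 ≤ n + 3 * j → (((2 * (r + 1)) ^ (k + 2) * (k + 2) : ℕ) : ℝ) ≤
      (2 * ((n : ℝ) + 3 * j)) ^ (k + 2) * (k + 2) := by
    intro r hr
    have h1 : (2 * (r + 1)) ^ (k + 2) * (k + 2) ≤ (2 * (n + 3 * j)) ^ (k + 2) * (k + 2) :=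
      Nat.mul_le_mul_right _ (Nat.pow_le_pow_left (by omega) _)
    have h2 : (((2 * (r + 1)) ^ (k + 2) * (k + 2) : ℕ) : ℝ) ≤
      (((2 * (n + 3 * j)) ^ (k + 2) * (k + 2) : ℕ) : ℝ) := by exact_mod_cast h1
    push_cast at h2 ⊢
    exact h2
  have hn : (0 : ℝ) ≤ n := Nat.cast_nonneg n
  have hj0 : (0 : ℝ) ≤ j := Nat.cast_nonneg j
  have hk0 : (0 : ℝ) ≤ k := Nat.cast_nonneg k
  calc _ ≤ ∑ _i ∈ range j, 3 * ((2 * ((n : ℝ) + 3 * j)) ^ (k + 2) * (k + 2)) := by
        refine sum_le_sum fun i hi => ?_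
        have := mem_range.1 hi
        have h1 := (uu_le hσ (n + 3 * i + 1)).trans (hb _ (by omega))
        have h2 := (uu_le hσ (n + 3 * i + 2)).trans (hb _ (by omega))
        have h3 := (kk_le hσ (n + 3 * i + 2)).trans (hb _ (by omega))
        linarith
    _ = (3 * (j : ℝ)) * ((2 * ((n : ℝ) + 3 * j)) ^ (k + 2) * (k + 2)) := by
        simp only [sum_const, card_range, nsmul_eq_mul]
        ring
    _ ≤ (2 * ((n : ℝ) + 3 * j)) * ((2 * ((n : ℝ) + 3 * j)) ^ (k + 2) * (k + 2)) :=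
        mul_le_mul_of_nonneg_right (by linarith) (by positivity)
    _ = _ := by
        push_cast
        rw [pow_succ 2 (k + 2), pow_succ ((n : ℝ) + 3 * j) (k + 2), mul_pow]
        ring

theorem not_many (ha : 0 < a) (hJ : Near a n J) (h : GS tl hd Set.univ J σ) :
    2 * XX σ n (MM k n) < ((Rs n : Finset (Eg k)).card : ℝ) + 3 := by
  have hσ : ∀ v, σ v = 1 ∨ σ v = -1 := fun v => h.1.1 v (Set.mem_univ v)
  by_contra hcon
  push Not at hcon
  have hC : (0 : ℝ) ≤ ((Rs n : Finset (Eg k)).card : ℝ) := Nat.cast_nonneg _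
  have key : ∀ i, i ≤ i0 k n →
      2 * (2 : ℝ) ^ i + ((Rs n : Finset (Eg k)).card : ℝ) + 1 ≤ 2 * XX σ n (MM k n + i) := by
    intro i
    induction i with
    | zero =>
      intro _
      simp only [pow_zero, add_zero]
      linarith
    | succ i ih =>
      intro hi
      have ih := ih (by omega)
      obtain ⟨M, hM⟩ : ∃ M, MM k n = M + 1 := ⟨(Rs n : Finset (Eg k)).card + 3, rfl⟩
      have hM' : MM k n + i = (M + i) + 1 := by omega
      have h1 := XX_low ha hJ h (j := M + i) (by unfold LL; omega)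
      rw [← hM'] at h1
      have h2 : XX σ n (MM k n + (i + 1)) = XX σ n (MM k n + i) +
          (uu σ (n + 3 * (MM k n + i) + 1) + uu σ (n + 3 * (MM k n + i) + 2) +
            kk σ (n + 3 * (MM k n + i) + 2)) := sum_range_succ _ _
      have h3 := uu_nonneg hσ (n + 3 * (MM k n + i) + 2)
      rw [h2, pow_succ]
      linarith
  have h1 := key (i0 k n) le_rfl
  have h2 := XX_le (n := n) hσ (MM k n + i0 k n)
  have h3 := i0_spec k n
  have h4 : ((n : ℝ) + 3 * ((MM k n + i0 k n : ℕ) : ℝ)) =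
      (((n + 3 * MM k n : ℕ) : ℝ) + 3 * i0 k n) := by push_cast; ring
  rw [h4] at h2
  linarith

theorem common (ha : 0 < a) (hJ : Near a n J) (h : GS tl hd Set.univ J σ)
    (h' : GS tl hd Set.univ J τ) :
    ∃ i : ℕ, kk σ (n + 3 * i + 2) < 1 ∧ kk τ (n + 3 * i + 2) < 1 := by
  have hσ : ∀ v, σ v = 1 ∨ σ v = -1 := fun v => h.1.1 v (Set.mem_univ v)
  have hτ : ∀ v, τ v = 1 ∨ τ v = -1 := fun v => h'.1.1 v (Set.mem_univ v)
  have h1 := not_many ha hJ h
  have h2 := not_many ha hJ h'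
  by_contra hcon
  push Not at hcon
  have h3 : (MM k n : ℝ) ≤ XX σ n (MM k n) + XX τ n (MM k n) := by
    unfold XX
    rw [← sum_add_distrib]
    calc (MM k n : ℝ) = ∑ _i ∈ range (MM k n), (1 : ℝ) := by simp
      _ ≤ _ := by
        refine sum_le_sum fun i _ => ?_
        have a1 := uu_nonneg hσ (n + 3 * i + 1)
        have a2 := uu_nonneg hσ (n + 3 * i + 2)
        have a3 := kk_nonneg hσ (n + 3 * i + 2)
        have b1 := uu_nonneg hτ (n + 3 * i + 1)
        have b2 := uu_nonneg hτ (n + 3 * i + 2)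
        have b3 := kk_nonneg hτ (n + 3 * i + 2)
        by_cases h4 : kk σ (n + 3 * i + 2) < 1
        · have := hcon i h4
          linarith
        · rw [not_lt] at h4
          linarith
  have h4 : (MM k n : ℝ) = ((Rs n : Finset (Eg k)).card : ℝ) + 4 := by
    unfold MM; push_cast; ring
  linarith

theorem mul_sign' (hσ : ∀ v, σ v = 1 ∨ σ v = -1) (hτ : ∀ v, τ v = 1 ∨ τ v = -1) (u v : St k) :
    σ u * τ v = 1 ∨ σ u * τ v = -1 := by
  rcases hσ u with h | h <;> rcases hτ v with h' | h' <;> rw [h, h'] <;> norm_num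

/-- a ring without changes is constant -/
theorem const_of_kk (hσ : ∀ v, σ v = 1 ∨ σ v = -1) {r : ℕ} (h : kk σ r < 1) (v : St k)
    (hv : rho v = r) : σ v = σ (fun _ => (r : ℤ)) := by
  classical
  have hT : ∀ e, Tan r e → σ (tl e) = σ (hd e) := by
    intro e he
    by_contra hne
    have h1 : ch σ e = 1 := by
      unfold ch
      rcases hσ (tl e) with h2 | h2 <;> rcases hσ (hd e) with h3 | h3
      · exact absurd (h2.trans h3.symm) hne
      · rw [h2, h3]; norm_num
      · rw [h2, h3]; norm_num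
      · exact absurd (h2.trans h3.symm) hne
    have h2 : ch σ e ≤ kk σ r := by
      unfold kk
      exact single_le_sum (f := fun e => ch σ e) (fun _ _ => ch_nonneg hσ _) (mem_Ts.2 he)
    linarith
  have mv0 : ∀ (v : St k) (j0 j : Fin (k + 2)), (∀ l, -(r : ℤ) + 1 ≤ v l ∧ v l ≤ r) →
      (v j0 = r ∨ v j0 = -(r : ℤ) + 1) → j ≠ j0 → ∀ m : ℕ, (m : ℤ) ≤ 2 * r - 1 →
      σ (Function.update v j (-(r : ℤ) + 1 + m)) = σ (Function.update v j (-(r : ℤ) + 1)) := by
    intro v j0 j hv h0 hj m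
    induction m with
    | zero => intro _; simp
    | succ m ih =>
      intro hm
      push_cast at hm
      rw [← ih (by omega)]
      have htl : ∀ c : ℤ, -(r : ℤ) + 1 ≤ c → c ≤ r → rho (Function.update v j c) = r := by
        intro c hc1 hc2
        rw [rho_eq]
        refine ⟨fun l => ?_, j0, ?_⟩
        · by_cases hl : l = j
          · subst hl
            rw [Function.update_self]
            exact ⟨hc1, hc2⟩
          · rw [Function.update_of_ne hl]
            exact hv l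
        · rw [Function.update_of_ne hj.symm]
          exact h0
      have hhd : hd (Function.update v j (-(r : ℤ) + 1 + m), j) =
          Function.update v j (-(r : ℤ) + 1 + ((m + 1 : ℕ) : ℤ)) := by
        funext l
        by_cases hl : l = j
        · subst hl
          have := hd_i ((Function.update v l (-(r : ℤ) + 1 + m), l) : Eg k)
          simp only at this
          rw [this, Function.update_self, Function.update_self]
          push_cast
          ring
        · have := hd_j ((Function.update v j (-(r : ℤ) + 1 + m), j) : Eg k) hl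
          simp only at this
          rw [this, Function.update_of_ne hl, Function.update_of_ne hl]
      have h5 := hT (Function.update v j (-(r : ℤ) + 1 + m), j)
        ⟨htl _ (by omega) (by omega), by rw [hhd]; exact htl _ (by omega) (by push_cast; omega)⟩
      rw [hhd] at h5
      exact h5.symm
  have mv : ∀ (v : St k) (j0 j : Fin (k + 2)), (∀ l, -(r : ℤ) + 1 ≤ v l ∧ v l ≤ r) →
      (v j0 = r ∨ v j0 = -(r : ℤ) + 1) → j ≠ j0 → σ (Function.update v j r) = σ v := by
    intro v j0 j hv h0 hj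
    have h1 : ∀ c : ℤ, -(r : ℤ) + 1 ≤ c → c ≤ r →
        σ (Function.update v j c) = σ (Function.update v j (-(r : ℤ) + 1)) := by
      intro c hc1 hc2
      obtain ⟨m, hm⟩ := Int.eq_ofNat_of_zero_le (show 0 ≤ c - (-(r : ℤ) + 1) by omega)
      have hc : c = -(r : ℤ) + 1 + m := by omega
      rw [hc]
      exact mv0 v j0 j hv h0 hj m (by omega)
    have h2 := hv j
    have h3 := h1 r (by omega) le_rfl
    have h4 := h1 (v j) h2.1 h2.2
    rw [Function.update_eq_self] at h4
    rw [h3, h4]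
  have caseA : ∀ v : St k, (∀ l, -(r : ℤ) + 1 ≤ v l ∧ v l ≤ r) → (∃ j0, v j0 = r) →
      σ v = σ (fun _ => (r : ℤ)) := by
    rintro v hv ⟨j0, h0⟩
    have key : ∀ S : Finset (Fin (k + 2)), σ (fun l => if l ∈ S then (r : ℤ) else v l) = σ v := by
      intro S
      induction S using Finset.induction_on with
      | empty => simp
      | insert j S hjS ih =>
        have hw : (fun l => if l ∈ insert j S then (r : ℤ) else v l) =
            Function.update (fun l => if l ∈ S then (r : ℤ) else v l) j r := by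
          funext l
          by_cases hl : l = j
          · subst hl
            rw [Function.update_self, if_pos (mem_insert_self _ _)]
          · rw [Function.update_of_ne hl]
            simp only [mem_insert, hl, false_or]
        have hrr := hv j0
        have hbound : ∀ l, -(r : ℤ) + 1 ≤ (fun l => if l ∈ S then (r : ℤ) else v l) l ∧
            (fun l => if l ∈ S then (r : ℤ) else v l) l ≤ r := by
          intro l
          show -(r : ℤ) + 1 ≤ (if l ∈ S then (r : ℤ) else v l) ∧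
            (if l ∈ S then (r : ℤ) else v l) ≤ r
          split_ifs
          · omega
          · exact hv l
        have hj0 : (fun l => if l ∈ S then (r : ℤ) else v l) j0 = r := by
          show (if j0 ∈ S then (r : ℤ) else v j0) = r
          split_ifs
          · rfl
          · exact h0
        rw [hw, ← ih]
        by_cases hj : j = j0
        · subst hj
          congr 1
          funext l
          by_cases hl : l = j
          · subst hl
            rw [Function.update_self]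
            exact hj0.symm
          · rw [Function.update_of_ne hl]
        · exact mv _ j0 j hbound (Or.inl hj0) hj
    have h1 := key univ
    simp only [mem_univ, if_true] at h1
    exact h1.symm
  obtain ⟨h1, j0, h2⟩ := rho_eq.1 hv
  rcases h2 with h2 | h2
  · exact caseA v h1 ⟨j0, h2⟩
  · have h3 := mv v j0 (j0 + 1) h1 (Or.inr h2) (nx_ne j0)
    rw [← h3]
    refine caseA _ (fun l => ?_) ⟨j0 + 1, Function.update_self _ _ _⟩
    by_cases hl : l = j0 + 1
    · subst hl
      rw [Function.update_self]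
      have := h1 (j0 + 1)
      omega
    · rw [Function.update_of_ne hl]
      exact h1 l

/-- Two ground states agree on the box up to a sign. -/
theorem unique_near (ha : 0 < a) (hJ : Near a n J) (h : GS tl hd Set.univ J σ)
    (h' : GS tl hd Set.univ J τ) :
    ∃ c : ℝ, (c = 1 ∨ c = -1) ∧ ∀ v, rho v ≤ n → σ v = c * τ v := by
  have hσ : ∀ v, σ v = 1 ∨ σ v = -1 := fun v => h.1.1 v (Set.mem_univ v)
  have hτ : ∀ v, τ v = 1 ∨ τ v = -1 := fun v => h'.1.1 v (Set.mem_univ v)
  obtain ⟨i, h1, h2⟩ := common ha hJ h h'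
  have h3 := const_of_kk hσ h1
  have h4 := const_of_kk hτ h2
  set r := n + 3 * i + 2 with hr
  have hring : ∀ v, rho v = r → σ v =
      σ (fun _ => (r : ℤ)) * τ (fun _ => (r : ℤ)) * τ v := by
    intro v hv
    rw [h3 v hv, h4 v hv]
    rcases hτ (fun _ => (r : ℤ)) with h5 | h5 <;> rw [h5] <;> ring
  refine ⟨σ (fun _ => (r : ℤ)) * τ (fun _ => (r : ℤ)), mul_sign' hσ hτ _ _, fun v hv => ?_⟩
  refine agree h h' (mul_sign' hσ hτ (fun _ => (r : ℤ)) (fun _ => (r : ℤ)))
    (Λ := {v | rho v ≤ r}) ?_ ?_ ?_ v ?_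
  · rw [Set.univ_inter]
    exact fin_rho _
  · intro e he1 he2
    have he1' : rho (tl e) ≤ r := he1
    have he2' : ¬ rho (hd e) ≤ r := he2
    have := rho_step e
    exact hring _ (by omega)
  · intro e he1 he2
    have he1' : rho (hd e) ≤ r := he1
    have he2' : ¬ rho (tl e) ≤ r := he2
    have := rho_step e
    exact hring _ (by omega)
  · show rho v ≤ r
    omega

/-- agreement on arbitrarily large boxes -/
theorem global {σ τ : St k → ℝ} (hσ : ∀ v, σ v = 1 ∨ σ v = -1)
    (hτ : ∀ v, τ v = 1 ∨ τ v = -1)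
    (h : ∀ n : ℕ, ∃ m ≥ n, ∃ c : ℝ, (c = 1 ∨ c = -1) ∧ ∀ v, rho v ≤ m → σ v = c * τ v) :
    τ = σ ∨ τ = -σ := by
  have key : ∀ v, σ v * τ v = σ 0 * τ 0 := by
    intro v
    obtain ⟨m, hm, c, hc, h1⟩ := h (rho v + rho (0 : St k))
    rw [h1 v (by omega), h1 0 (by omega)]
    have e : ∀ w, τ w * τ w = 1 := by
      intro w
      rcases hτ w with h4 | h4 <;> rw [h4] <;> norm_num
    rw [mul_assoc, mul_assoc, e, e]
  have e : ∀ w, σ w * σ w = 1 := by
    intro w
    rcases hσ w with h4 | h4 <;> rw [h4] <;> norm_num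
  have h5 : σ 0 * τ 0 = 1 ∨ σ 0 * τ 0 = -1 := by
    rcases hσ 0 with h | h <;> rcases hτ 0 with h' | h' <;> rw [h, h'] <;> norm_num
  rcases h5 with h5 | h5
  · left
    funext v
    have h6 := key v
    rw [h5] at h6
    calc τ v = (σ v * σ v) * τ v := by rw [e, one_mul]
      _ = σ v * (σ v * τ v) := by ring
      _ = σ v := by rw [h6, mul_one]
  · right
    funext v
    have h6 := key v
    rw [h5] at h6
    calc τ v = (σ v * σ v) * τ v := by rw [e, one_mul]
      _ = σ v * (σ v * τ v) := by ring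
      _ = (-σ) v := by rw [h6]; simp

end Pool.Agent.X59.GD
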