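import Pool.Agent.X59.GD.D

set_option autoImplicit false
set_option linter.unusedSectionVars false

/-! Almost surely all ground states agree on a positive fraction of the boxes of any size. -/

open Finset Filter Topology MeasureTheory ProbabilityTheory

namespace Pool.Agent.X59.GD

open Pool.Agent.TH761.EB

variable {k : ℕ}

/-- translation of edges -/
def te (x : St k) (e : Eg k) : Eg k := (e.1 + x, e.2)

theorem te_inj (x : St k) : Function.Injective (te x) := by
  rintro ⟨v, i⟩ ⟨w, j⟩ h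
  obtain ⟨h1, h2⟩ := Prod.mk.inj h
  simp only at h1 h2
  rw [add_left_injective x h1, h2]

/-- translation as an equivalence -/
def teq (x : St k) : Eg k ≃ Eg k where
  toFun := te x
  invFun := te (-x)
  left_inv := by intro e; simp [te]
  right_inv := by intro e; simp [te]

theorem tl_te (x : St k) (e : Eg k) : tl (te x e) = tl e + x := rfl

theorem hd_te (x : St k) (e : Eg k) : hd (te x e) = hd e + x := by
  show e.1 + x + Pi.single e.2 1 = e.1 + Pi.single e.2 1 + x
  abel

theorem gs_shift {J : Eg k → ℝ} {σ : St k → ℝ} (x : St k) (h : GS tl hd Set.univ J σ) :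
    GS tl hd Set.univ (fun e => J (te x e)) (fun v => σ (v + x)) := by
  refine ⟨⟨fun v _ => h.1.1 _ (Set.mem_univ _), fun v hv => absurd (Set.mem_univ v) hv⟩,
    fun ρ hρ hfin hne => ?_⟩
  have h1 := h.2 (fun v => ρ (v - x)) ⟨fun v _ => hρ.1 _ (Set.mem_univ _),
    fun v hv => absurd (Set.mem_univ v) hv⟩ (by
      refine (hfin.image (fun v => v + x)).subset fun v hv => ⟨v - x, ?_, by simp⟩
      show ρ (v - x) ≠ σ (v - x + x)
      rw [sub_add_cancel]
      exact hv) (fun he => hne (by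
      funext v
      have := congrFun he (v + x)
      simp only [add_sub_cancel_right] at this
      exact this))
  rw [← finsum_comp_equiv (teq x)] at h1
  convert h1 using 2
  funext e
  show J (te x e) * (σ (tl e + x) * σ (hd e + x) - ρ (tl e) * ρ (hd e)) =
    J (te x e) * (σ (tl (te x e)) * σ (hd (te x e)) -
      ρ (tl (te x e) - x) * ρ (hd (te x e) - x))
  rw [tl_te, hd_te, add_sub_cancel_right, add_sub_cancel_right]

theorem agree_at {J : Eg k → ℝ} {n : ℕ} {a : ℝ} (ha : 0 < a) (x : St k)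
    (hJ : Near a n fun e => J (te x e)) {σ τ : St k → ℝ} (h : GS tl hd Set.univ J σ)
    (h' : GS tl hd Set.univ J τ) :
    ∃ c : ℝ, (c = 1 ∨ c = -1) ∧ ∀ v, rho (v - x) ≤ n → σ v = c * τ v := by
  obtain ⟨c, hc, h1⟩ := unique_near ha hJ (gs_shift x h) (gs_shift x h')
  refine ⟨c, hc, fun v hv => ?_⟩
  have := h1 (v - x) hv
  simpa using this

/-- the edges of the pattern -/
noncomputable def FS (k n : ℕ) : Finset (Eg k) := FF (LL k n)

open Classical in
/-- a finite form of `Near` (a stronger one: all the edges starting in the box) -/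
noncomputable def FN (k n : ℕ) : Finset (Eg k) := (FF (LL k n)).filter fun e =>
  rho (hd e) ≤ LL k n ∧ ¬ (rho (tl e) ≤ n ∧ rho (hd e) ≤ n)

theorem near_iff {J : Eg k → ℝ} {n : ℕ} {a : ℝ} :
    Near a n J ↔ ∀ e ∈ FN k n, |J e - a * pat n e| < a * dl k n := by
  classical
  unfold Near FN
  constructor
  · intro h e he
    rw [mem_filter, mem_FF] at he
    exact h e he.1 he.2.1 he.2.2
  · intro h e h1 h2 h3
    refine h e ?_
    rw [mem_filter, mem_FF]
    exact ⟨h1, h2, h3⟩

variable (μ : Measure ℝ) [IsProbabilityMeasure μ]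

/-- the law of the couplings -/
noncomputable def Lw (k : ℕ) : Measure (Eg k → ℝ) := Measure.infinitePi fun _ : Eg k => μ

instance : IsProbabilityMeasure (Lw μ k) := by unfold Lw; infer_instance

/-- positions -/
noncomputable def pos (k n m : ℕ) : St k := fun i => if i = 0 then (m : ℤ) * (2 * LL k n + 2) else 0

theorem shift_law (x : St k) : (Lw μ k).map (fun J e => J (te x e)) = Lw μ k := by
  unfold Lw
  exact Measure.map_infinitePi_infinitePi_of_inj (P := fun _ => μ) (te_inj x)

/-- the event -/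
def Ev (a : ℝ) (n m : ℕ) : Set (Eg k → ℝ) := {J | Near a n fun e => J (te (pos k n m) e)}

theorem meas_near (a : ℝ) (n : ℕ) : MeasurableSet {J : Eg k → ℝ | Near a n J} := by
  have e : {J : Eg k → ℝ | Near a n J} =
      ⋂ e ∈ FN k n, {J : Eg k → ℝ | |J e - a * pat n e| < a * dl k n} := by
    ext J
    simp only [Set.mem_setOf_eq, Set.mem_iInter]
    exact near_iff
  rw [e]
  refine Finset.measurableSet_biInter _ fun e _ => ?_
  exact measurableSet_lt (by fun_prop) measurable_const

theorem meas_ev (a : ℝ) (n m : ℕ) : MeasurableSet (Ev a n m : Set (Eg k → ℝ)) := by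
  have h : Measurable (fun (J : Eg k → ℝ) e => J (te (pos k n m) e)) := by fun_prop
  exact h (meas_near a n)

/-- the indicator -/
noncomputable def Xi (a : ℝ) (n m : ℕ) : (Eg k → ℝ) → ℝ := (Ev a n m).indicator 1

theorem meas_Xi (a : ℝ) (n m : ℕ) : Measurable (Xi a n m : (Eg k → ℝ) → ℝ) :=
  measurable_one.indicator (meas_ev a n m)

theorem Xi_shift (a : ℝ) (n m : ℕ) (J : Eg k → ℝ) :
    Xi a n m J = ({J : Eg k → ℝ | Near a n J}).indicator 1 (fun e => J (te (pos k n m) e)) := by
  unfold Xi Ev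
  by_cases h : Near a n fun e => J (te (pos k n m) e)
  · rw [Set.indicator_of_mem (by exact h), Set.indicator_of_mem (by exact h)]
    rfl
  · rw [Set.indicator_of_notMem (by exact h), Set.indicator_of_notMem (by exact h)]

theorem ident (a : ℝ) (n m : ℕ) : (Lw μ k).map (Xi a n m) =
    (Lw μ k).map (({J : Eg k → ℝ | Near a n J}).indicator 1) := by
  have h1 : (Xi a n m : (Eg k → ℝ) → ℝ) = (({J : Eg k → ℝ | Near a n J}).indicator 1) ∘
      (fun J e => J (te (pos k n m) e)) := by
    funext J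
    exact Xi_shift a n m J
  rw [h1, ← Measure.map_map (measurable_one.indicator (meas_near a n)) (by fun_prop), shift_law]

theorem identD (a : ℝ) (n m : ℕ) :
    IdentDistrib (Xi a n m) (Xi a n 0) (Lw μ k) (Lw μ k) :=
  ⟨(meas_Xi a n m).aemeasurable, (meas_Xi a n 0).aemeasurable, by rw [ident, ident]⟩

theorem indep (a : ℝ) (n : ℕ) {m m' : ℕ} (hm : m ≠ m') :
    IndepFun (Xi a n m) (Xi a n m') (Lw μ k) := by
  classical
  have hI : iIndepFun (fun (e : Eg k) (J : Eg k → ℝ) => J e) (Lw μ k) := by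
    unfold Lw
    exact iIndepFun_infinitePi (P := fun _ : Eg k => μ) (X := fun _ x => x)
      (fun _ => measurable_id)
  set F : ℕ → Finset (Eg k) := fun m => (FN k n).image (te (pos k n m)) with hF
  have hdis : Disjoint (F m) (F m') := by
    rw [Finset.disjoint_left]
    intro e h1 h2
    rw [hF, mem_image] at h1 h2
    obtain ⟨e1, he1, h1⟩ := h1
    obtain ⟨e2, he2, h2⟩ := h2
    unfold FN at he1 he2
    rw [mem_filter, mem_FF] at he1 he2
    have b1 := (rho_le.1 he1.1) 0
    have b2 := (rho_le.1 he2.1) 0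
    have h3 : tl (te (pos k n m) e1) 0 = tl (te (pos k n m') e2) 0 := by rw [h1, h2]
    rw [tl_te, tl_te, Pi.add_apply, Pi.add_apply] at h3
    have p1 : pos k n m 0 = (m : ℤ) * (2 * LL k n + 2) := if_pos rfl
    have p2 : pos k n m' 0 = (m' : ℤ) * (2 * LL k n + 2) := if_pos rfl
    rw [p1, p2] at h3
    rcases lt_or_gt_of_ne hm with h4 | h4
    · have h5 : (m : ℤ) + 1 ≤ m' := by exact_mod_cast h4
      nlinarith
    · have h5 : (m' : ℤ) + 1 ≤ m := by exact_mod_cast h4
      nlinarith
  have hfin := hI.indepFun_finset (F m) (F m') hdis (fun e => measurable_pi_apply e)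
  -- the indicator as a function of the restriction
  have hrep : ∀ m : ℕ, ∃ g : (↥(F m) → ℝ) → ℝ, Measurable g ∧
      Xi a n m = g ∘ fun (J : Eg k → ℝ) (e : F m) => J e := by
    intro m
    have hmem : ∀ e ∈ FN k n, te (pos k n m) e ∈ F m := fun e he => mem_image_of_mem _ he
    set B : Set (↥(F m) → ℝ) :=
      {y | ∀ e : FN k n, |y ⟨te (pos k n m) e.1, hmem e.1 e.2⟩ - a * pat n e.1| < a * dl k n}
      with hB
    have hBm : MeasurableSet B := by
      have : B = ⋂ e : FN k n,
          {y | |y ⟨te (pos k n m) e.1, hmem e.1 e.2⟩ - a * pat n e.1| < a * dl k n} := by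
        ext y
        simp only [hB, Set.mem_setOf_eq, Set.mem_iInter]
      rw [this]
      exact MeasurableSet.iInter fun e => measurableSet_lt (by fun_prop) measurable_const
    refine ⟨B.indicator 1, measurable_one.indicator hBm, ?_⟩
    funext J
    have hiff : J ∈ (Ev a n m : Set (Eg k → ℝ)) ↔
        (fun e : F m => J e) ∈ B := by
      show (Near a n fun e => J (te (pos k n m) e)) ↔ _
      rw [near_iff]
      constructor
      · intro h e
        exact h e.1 e.2
      · intro h e he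
        exact h ⟨e, he⟩
    show (Ev a n m).indicator 1 J = B.indicator 1 (fun e : F m => J e)
    by_cases h : J ∈ (Ev a n m : Set (Eg k → ℝ))
    · rw [Set.indicator_of_mem h, Set.indicator_of_mem (hiff.1 h)]
      rfl
    · rw [Set.indicator_of_notMem h, Set.indicator_of_notMem (fun h' => h (hiff.2 h'))]
  obtain ⟨g, hg, e1⟩ := hrep m
  obtain ⟨g', hg', e2⟩ := hrep m'
  rw [e1, e2]
  exact hfin.comp hg hg'

theorem prob_pos {a : ℝ} (ha : 0 < a) (h1 : a ∈ μ.support) (h2 : -a ∈ μ.support) (n : ℕ) :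
    0 < Lw μ k {J : Eg k → ℝ | Near a n J} := by
  have e : {J : Eg k → ℝ | Near a n J} =
      Set.pi (FN k n) fun e => Metric.ball (a * pat n e) (a * dl k n) := by
    ext J
    rw [Set.mem_pi]
    show Near a n J ↔ _
    rw [near_iff]
    refine forall_congr' fun e => ?_
    rw [mem_coe]
    refine forall_congr' fun _ => ?_
    rw [Metric.mem_ball, Real.dist_eq]
  rw [e]
  unfold Lw
  rw [Measure.infinitePi_pi (fun _ : Eg k => μ) (fun e _ => Metric.isOpen_ball.measurableSet)]
  rw [pos_iff_ne_zero, Finset.prod_ne_zero_iff]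
  intro e _
  rw [← pos_iff_ne_zero]
  have hr : 0 < a * dl k n := mul_pos ha (dl_pos k n)
  rcases pat_val n e with h3 | h3
  · rw [h3, mul_one]
    exact (Measure.mem_support_iff_forall a).1 h1 _ (Metric.ball_mem_nhds a hr)
  · rw [h3, mul_neg, mul_one]
    exact (Measure.mem_support_iff_forall (-a)).1 h2 _ (Metric.ball_mem_nhds (-a) hr)

theorem density {a : ℝ} (ha : 0 < a) (h1 : a ∈ μ.support) (h2 : -a ∈ μ.support) (n : ℕ) :
    ∃ p : ℝ, 0 < p ∧ ∀ᵐ J ∂(Lw μ k), ∀ᶠ N : ℕ in atTop,
      p * N ≤ ({m : ℕ | m < N ∧ J ∈ (Ev a n m : Set (Eg k → ℝ))}.ncard : ℝ) := by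
  classical
  have hslln := strong_law_ae_real (μ := Lw μ k) (fun m => Xi a n m)
    ((integrable_const (1 : ℝ)).indicator (meas_ev a n 0))
    (fun m m' hm => indep μ a n hm) (fun m => identD μ a n m)
  have hmean : ∫ J, Xi a n 0 J ∂(Lw μ k) = (Lw μ k).real {J : Eg k → ℝ | Near a n J} := by
    have hid : IdentDistrib (Xi a n 0) (({J : Eg k → ℝ | Near a n J}).indicator 1)
        (Lw μ k) (Lw μ k) :=
      ⟨(meas_Xi a n 0).aemeasurable,
        (measurable_one.indicator (meas_near a n)).aemeasurable, ident μ a n 0⟩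
    rw [hid.integral_eq]
    exact integral_indicator_one (meas_near a n)
  have hp : 0 < (Lw μ k).real {J : Eg k → ℝ | Near a n J} :=
    ENNReal.toReal_pos (prob_pos μ ha h1 h2 n).ne' (measure_ne_top _ _)
  refine ⟨(Lw μ k).real {J : Eg k → ℝ | Near a n J} / 2, by positivity, ?_⟩
  filter_upwards [hslln] with J hJ
  rw [hmean] at hJ
  have hev := hJ.eventually (lt_mem_nhds (half_lt_self hp))
  filter_upwards [hev, eventually_gt_atTop 0] with N hN hN0
  have hN0' : (0 : ℝ) < N := by exact_mod_cast hN0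
  rw [lt_div_iff₀ hN0'] at hN
  refine hN.le.trans (le_of_eq ?_)
  have hset : {m : ℕ | m < N ∧ J ∈ (Ev a n m : Set (Eg k → ℝ))} =
      ((range N).filter fun m => J ∈ (Ev a n m : Set (Eg k → ℝ)) : Finset ℕ) := by
    ext m
    simp
  rw [hset, Set.ncard_coe_finset]
  rw [card_filter]
  push_cast
  refine sum_congr rfl fun m _ => ?_
  unfold Xi
  by_cases h : J ∈ (Ev a n m : Set (Eg k → ℝ))
  · rw [Set.indicator_of_mem h, if_pos h]
    rfl
  · rw [Set.indicator_of_notMem h, if_neg h]

/-- all ground states agree on the box of radius `n` around the `m`-th point of the first axis -/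
def AgreeOn {d : ℕ} (GSt : ((Fin d → ℤ) → ℝ) → Prop) (n m : ℕ) : Prop :=
  ∀ σ τ : (Fin d → ℤ) → ℝ, GSt σ → GSt τ → ∃ c : ℝ, (c = 1 ∨ c = -1) ∧
    ∀ v : Fin d → ℤ, (∀ i, |v i - if (i : ℕ) = 0 then (m : ℤ) else 0| ≤ n) → σ v = c * τ v

theorem density' {a : ℝ} (ha : 0 < a) (h1 : a ∈ μ.support) (h2 : -a ∈ μ.support) (n : ℕ) :
    ∃ p : ℝ, 0 < p ∧ ∀ᵐ J ∂(Lw μ k), ∀ᶠ N : ℕ in atTop,
      p * N ≤ ({m : ℕ | m < N ∧ AgreeOn (fun σ => GS tl hd Set.univ J σ) n m}.ncard : ℝ) := by
  obtain ⟨p, hp, hJ⟩ := density (k := k) μ ha h1 h2 (n + 1)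
  set L : ℕ := 2 * LL k (n + 1) + 2 with hL
  have hL0 : 0 < L := by omega
  have hLr : (0 : ℝ) < L := by exact_mod_cast hL0
  refine ⟨p / (2 * L), by positivity, ?_⟩
  filter_upwards [hJ] with J hJ
  have ht : Tendsto (fun N : ℕ => N / L) atTop atTop := Nat.tendsto_div_const_atTop hL0.ne'
  filter_upwards [ht.eventually hJ, eventually_ge_atTop L] with N hN hNL
  have hsub : (fun m : ℕ => m * L) '' {m : ℕ | m < N / L ∧ J ∈ (Ev a (n + 1) m : Set (Eg k → ℝ))} ⊆
      {m : ℕ | m < N ∧ AgreeOn (fun σ => GS tl hd Set.univ J σ) n m} := by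
    rintro _ ⟨m, ⟨hm, hE⟩, rfl⟩
    refine ⟨?_, ?_⟩
    · show m * L < N
      have h3 : (m + 1) * L ≤ N := (Nat.le_div_iff_mul_le hL0).1 hm
      have h4 : (m + 1) * L = m * L + L := by ring
      omega
    · intro σ τ hσ hτ
      obtain ⟨c, hc, hv⟩ := agree_at ha (pos k (n + 1) m) hE hσ hτ
      refine ⟨c, hc, fun v hv' => hv v ?_⟩
      rw [rho_le]
      intro i
      have h5 := hv' i
      have h6 : pos k (n + 1) m i = if (i : ℕ) = 0 then ((m * L : ℕ) : ℤ) else 0 := by
        unfold pos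
        by_cases hi : i = 0
        · subst hi
          rw [if_pos rfl, if_pos (by simp), hL]
          push_cast
          ring
        · rw [if_neg hi, if_neg (fun h => hi (Fin.ext (by simpa using h)))]
      rw [Pi.sub_apply, h6]
      rw [abs_le] at h5
      push_cast at h5 ⊢
      omega
  have hfin : {m : ℕ | m < N ∧ AgreeOn (fun σ => GS tl hd Set.univ J σ) n m}.Finite :=
    (Set.finite_lt_nat N).subset fun m hm => hm.1
  have hcard := Set.ncard_le_ncard hsub hfin
  rw [Set.ncard_image_of_injective _ fun x y h => Nat.eq_of_mul_eq_mul_right hL0 h] at hcard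
  have hcard' : ({m : ℕ | m < N / L ∧ J ∈ (Ev a (n + 1) m : Set (Eg k → ℝ))}.ncard : ℝ) ≤
      ({m : ℕ | m < N ∧ AgreeOn (fun σ => GS tl hd Set.univ J σ) n m}.ncard : ℝ) := by
    exact_mod_cast hcard
  refine le_trans ?_ (hN.trans hcard')
  have h7 : (N : ℝ) ≤ 2 * L * ((N / L : ℕ) : ℝ) := by
    have h8 : N < L * (N / L + 1) := Nat.lt_mul_div_succ N hL0
    have h9 : 1 ≤ N / L := (Nat.one_le_div_iff hL0).2 hNL
    have h10 : N ≤ 2 * L * (N / L) := by nlinarith
    exact_mod_cast h10
  calc p / (2 * L) * N ≤ p / (2 * L) * (2 * L * ((N / L : ℕ) : ℝ)) :=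
        mul_le_mul_of_nonneg_left h7 (by positivity)
    _ = p * ((N / L : ℕ) : ℝ) := by field_simp

end Pool.Agent.X59.GD
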